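import Pool.Agent.Shared.SingHom.MV

/-!
Reduced singular homology of subsets of a topological space (integer coefficients):
chains and homology (`Basic`), prism operator and deformation lemma (`Prism`), small simplices
(`Subdiv`), Mayer-Vietoris, acyclic pairs and punctured vector spaces (`MV`).
-/
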