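import Mathlib

/-!
Singular chains with integer coefficients, in augmented form.
A simplex is indexed by its number `m` of VERTICES (so `m = 0` is the empty simplex and
`H A (k+1)` is the reduced homology of `A` in dimension `k`).
All chains of a space `X` live in one module `Ch X`; `C A m` is the submodule of chains made of
simplices with `m` vertices and image inside the subset `A`.
-/

set_option autoImplicit false

open Set

noncomputable section

namespace Pool.Agent.Shared.SingHom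

/-! ### Boundary of an abstract augmented semi-simplicial set -/

section Abstract

variable {S S' : ℕ → Type*}

/-- boundary of one generator -/
def bdGen (fc : ∀ m, Fin (m + 1) → S (m + 1) → S m) : (Σ m, S m) → ((Σ m, S m) →₀ ℤ)
  | ⟨0, _⟩ => 0
  | ⟨m + 1, s⟩ => ∑ i : Fin (m + 1), ((-1 : ℤ) ^ (i : ℕ)) • Finsupp.single ⟨m, fc m i s⟩ (1 : ℤ)

/-- boundary operator -/
def bdG (fc : ∀ m, Fin (m + 1) → S (m + 1) → S m) :
    ((Σ m, S m) →₀ ℤ) →ₗ[ℤ] ((Σ m, S m) →₀ ℤ) :=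
  Finsupp.linearCombination ℤ (bdGen fc)

theorem bdG_single (fc : ∀ m, Fin (m + 1) → S (m + 1) → S m) (s : Σ m, S m) :
    bdG fc (Finsupp.single s 1) = bdGen fc s := by
  simp [bdG]

/-- chain map induced by a map of generators -/
def mapG (F : ∀ m, S m → S' m) : ((Σ m, S m) →₀ ℤ) →ₗ[ℤ] ((Σ m, S' m) →₀ ℤ) :=
  Finsupp.lmapDomain ℤ ℤ (fun s => ⟨s.1, F s.1 s.2⟩)

theorem mapG_single (F : ∀ m, S m → S' m) (m : ℕ) (s : S m) (c : ℤ) :
    mapG F (Finsupp.single ⟨m, s⟩ c) = Finsupp.single ⟨m, F m s⟩ c := by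
  simp [mapG]

theorem lext {α M : Type*} [AddCommGroup M] {φ ψ : (α →₀ ℤ) →ₗ[ℤ] M}
    (h : ∀ a, φ (Finsupp.single a 1) = ψ (Finsupp.single a 1)) : φ = ψ := by
  apply Finsupp.lhom_ext
  intro a b
  have : Finsupp.single a b = b • Finsupp.single a (1 : ℤ) := by simp
  rw [this, map_smul, map_smul, h]

theorem bdG_mapG (fc : ∀ m, Fin (m + 1) → S (m + 1) → S m)
    (fc' : ∀ m, Fin (m + 1) → S' (m + 1) → S' m) (F : ∀ m, S m → S' m)
    (h : ∀ m i s, fc' m i (F (m + 1) s) = F m (fc m i s)) (x : (Σ m, S m) →₀ ℤ) :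
    bdG fc' (mapG F x) = mapG F (bdG fc x) := by
  have : (bdG fc').comp (mapG F) = (mapG F).comp (bdG fc) := by
    apply lext
    rintro ⟨m, s⟩
    simp only [LinearMap.comp_apply, mapG_single, bdG_single]
    cases m with
    | zero => simp [bdGen]
    | succ m => simp [bdGen, map_sum, mapG_single, h]
  exact LinearMap.congr_fun this x

/-- a linear map sends chains supported on `s` into `N` as soon as it does so on generators -/
theorem map_supported {α M : Type*} [AddCommGroup M] (φ : (α →₀ ℤ) →ₗ[ℤ] M) (s : Set α)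
    (N : Submodule ℤ M) (h : ∀ a ∈ s, φ (Finsupp.single a 1) ∈ N) {x : α →₀ ℤ}
    (hx : x ∈ Finsupp.supported ℤ ℤ s) : φ x ∈ N := by
  rw [Finsupp.supported_eq_span_single] at hx
  have : Submodule.span ℤ ((fun i => Finsupp.single i (1 : ℤ)) '' s) ≤ N.comap φ := by
    rw [Submodule.span_le]
    rintro _ ⟨a, ha, rfl⟩
    exact h a ha
  exact this hx

/-- two linear maps agreeing on generators agree on chains supported there -/
theorem eq_on_supported {α M : Type*} [AddCommGroup M] (φ ψ : (α →₀ ℤ) →ₗ[ℤ] M) (s : Set α)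
    (h : ∀ a ∈ s, φ (Finsupp.single a 1) = ψ (Finsupp.single a 1)) {x : α →₀ ℤ}
    (hx : x ∈ Finsupp.supported ℤ ℤ s) : φ x = ψ x := by
  have := map_supported (φ - ψ) s ⊥ (fun a ha => by simp [h a ha]) hx
  simpa [sub_eq_zero] using this

end Abstract

/-! ### Formal chains on vertex tuples -/

section Formal

variable {Y Y' : Type*}

/-- formal chains on tuples of points of `Y` -/
abbrev LC (Y : Type*) := (Σ m : ℕ, Fin m → Y) →₀ ℤ

/-- boundary of formal chains -/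
def bdL : LC Y →ₗ[ℤ] LC Y := bdG (fun _ i v => v ∘ i.succAbove)

/-- cone with a new first vertex -/
def cone (a : Y) : LC Y →ₗ[ℤ] LC Y :=
  Finsupp.lmapDomain ℤ ℤ (fun s => ⟨s.1 + 1, Fin.cons a s.2⟩)

theorem cone_single (a : Y) (m : ℕ) (v : Fin m → Y) (c : ℤ) :
    cone a (Finsupp.single ⟨m, v⟩ c) = Finsupp.single ⟨m + 1, Fin.cons a v⟩ c := by
  simp [cone]

theorem bdL_zero (v : Fin 0 → Y) : bdL (Finsupp.single ⟨0, v⟩ 1) = 0 := by
  simp [bdL, bdG_single, bdGen]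

theorem bdL_succ (m : ℕ) (v : Fin (m + 1) → Y) :
    bdL (Finsupp.single ⟨m + 1, v⟩ 1) =
      ∑ i : Fin (m + 1), ((-1 : ℤ) ^ (i : ℕ)) • Finsupp.single ⟨m, v ∘ i.succAbove⟩ (1 : ℤ) := by
  simp only [bdL, bdG_single, bdGen]

theorem bdL_cone (a : Y) (x : LC Y) : bdL (cone a x) = x - cone a (bdL x) := by
  have : bdL.comp (cone a) = LinearMap.id - (cone a).comp bdL := by
    apply lext
    rintro ⟨m, v⟩
    simp only [LinearMap.comp_apply, cone_single, LinearMap.sub_apply, LinearMap.id_apply]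
    rw [bdL_succ, Fin.sum_univ_succ]
    have h0 : (Fin.cons a v : Fin (m + 1) → Y) ∘ (0 : Fin (m + 1)).succAbove = v := by
      ext j; simp
    rw [h0]
    cases m with
    | zero => simp [bdL_zero]
    | succ m =>
      rw [bdL_succ, map_sum, sub_eq_add_neg, ← Finset.sum_neg_distrib]
      simp only [Fin.val_zero, pow_zero, one_smul, add_right_inj]
      refine Finset.sum_congr rfl fun i _ => ?_
      have h1 : (Fin.cons a v : Fin (m + 2) → Y) ∘ (i.succ).succAbove =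
          Fin.cons a (v ∘ i.succAbove) := by
        ext j
        refine Fin.cases ?_ (fun j => ?_) j <;> simp
      rw [h1, map_smul, cone_single, Fin.val_succ, pow_succ, mul_neg_one, neg_smul]
  exact LinearMap.congr_fun this x

theorem bdL_bdL (x : LC Y) : bdL (bdL x) = 0 := by
  have key : ∀ (m : ℕ) (v : Fin m → Y), bdL (bdL (Finsupp.single ⟨m, v⟩ 1)) = 0 := by
    intro m
    induction m with
    | zero => intro v; simp [bdL_zero]
    | succ m ih =>
      intro v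
      have : Finsupp.single (⟨m + 1, v⟩ : Σ m : ℕ, Fin m → Y) (1 : ℤ) =
          cone (v 0) (Finsupp.single ⟨m, Fin.tail v⟩ 1) := by
        rw [cone_single, Fin.cons_self_tail]
      rw [this, bdL_cone, map_sub, bdL_cone, ih]
      simp
  have : bdL.comp (bdL (Y := Y)) = 0 := by
    apply lext
    rintro ⟨m, v⟩
    exact key m v
  exact LinearMap.congr_fun this x

end Formal

/-! ### Singular chains -/

/-- the standard simplex with `m` vertices -/
abbrev Dl (m : ℕ) : Type := stdSimplex ℝ (Fin m)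

/-- the affine map of standard simplices induced by a map of vertices -/
def smap {k m : ℕ} (v : Fin k → Fin m) : C(Dl k, Dl m) :=
  ⟨stdSimplex.map v, stdSimplex.continuous_map v⟩

/-- the `i`-th face inclusion -/
def face (m : ℕ) (i : Fin (m + 1)) : C(Dl m, Dl (m + 1)) := smap i.succAbove

/-- singular simplices of `X`, with their number of vertices -/
abbrev Sx (X : Type*) [TopologicalSpace X] := Σ m : ℕ, C(Dl m, X)

/-- singular chains of `X` -/
abbrev Ch (X : Type*) [TopologicalSpace X] := Sx X →₀ ℤ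

variable {X Y W : Type*} [TopologicalSpace X] [TopologicalSpace Y] [TopologicalSpace W]

/-- the singular boundary -/
def bd : Ch X →ₗ[ℤ] Ch X := bdG (fun m i (σ : C(Dl (m + 1), X)) => σ.comp (face m i))

/-- the push-forward of chains -/
def push (g : C(X, Y)) : Ch X →ₗ[ℤ] Ch Y := mapG (fun m (σ : C(Dl m, X)) => g.comp σ)

/-- chains of simplices with `m` vertices lying in `A` -/
def C (A : Set X) (m : ℕ) : Submodule ℤ (Ch X) :=
  Finsupp.supported ℤ ℤ {s : Sx X | s.1 = m ∧ ∀ t, s.2 t ∈ A}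

/-- cycles -/
def Z (A : Set X) (m : ℕ) : Submodule ℤ (Ch X) := C A m ⊓ LinearMap.ker bd

/-- boundaries -/
def B (A : Set X) (m : ℕ) : Submodule ℤ (Ch X) := (C A (m + 1)).map bd

theorem bd_zero (σ : C(Dl 0, X)) : bd (Finsupp.single ⟨0, σ⟩ 1) = 0 := by
  simp [bd, bdG_single, bdGen]

theorem bd_succ (m : ℕ) (σ : C(Dl (m + 1), X)) :
    bd (Finsupp.single ⟨m + 1, σ⟩ 1) =
      ∑ i : Fin (m + 1), ((-1 : ℤ) ^ (i : ℕ)) •
        Finsupp.single (⟨m, σ.comp (face m i)⟩ : Sx X) (1 : ℤ) := by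
  simp only [bd, bdG_single, bdGen]

theorem push_single (g : C(X, Y)) (m : ℕ) (σ : C(Dl m, X)) (c : ℤ) :
    push g (Finsupp.single ⟨m, σ⟩ c) = Finsupp.single ⟨m, g.comp σ⟩ c := mapG_single _ _ _ _

theorem bd_push (g : C(X, Y)) (x : Ch X) : bd (push g x) = push g (bd x) :=
  bdG_mapG (fun m i (σ : C(Dl (m + 1), X)) => σ.comp (face m i))
    (fun m i (σ : C(Dl (m + 1), Y)) => σ.comp (face m i))
    (fun m (σ : C(Dl m, X)) => g.comp σ) (fun _ _ _ => rfl) x

theorem bd_bd (x : Ch X) : bd (bd x) = 0 := by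
  have : bd.comp (bd (X := X)) = 0 := by
    apply lext
    rintro ⟨m, σ⟩
    let F : ∀ k, (Fin k → Fin m) → C(Dl k, X) := fun k v => σ.comp (smap v)
    have hF : ∀ y, bd (mapG F y) = mapG F (bdL y) := fun y =>
      bdG_mapG _ _ F (fun k i v => by
        ext t
        simp only [F, face, smap, ContinuousMap.comp_apply, ContinuousMap.coe_mk,
          stdSimplex.map_comp_apply]) y
    have h1 : Finsupp.single (⟨m, σ⟩ : Sx X) (1 : ℤ) = mapG F (Finsupp.single ⟨m, id⟩ 1) := by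
      rw [mapG_single]
      congr 2
      ext t
      simp [F, smap]
    rw [LinearMap.comp_apply, h1, hF, hF, bdL_bdL]
    simp
  exact LinearMap.congr_fun this x

theorem single_mem_C {A : Set X} {m : ℕ} {σ : C(Dl m, X)} (h : ∀ t, σ t ∈ A) (c : ℤ) :
    Finsupp.single (⟨m, σ⟩ : Sx X) c ∈ C A m :=
  Finsupp.single_mem_supported _ _ ⟨rfl, h⟩

/-- induction principle: a linear map sends `C A m` into `N` if it does so on simplices -/
theorem map_C {M : Type*} [AddCommGroup M] (φ : Ch X →ₗ[ℤ] M) {A : Set X} {m : ℕ}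
    (N : Submodule ℤ M)
    (h : ∀ σ : C(Dl m, X), (∀ t, σ t ∈ A) → φ (Finsupp.single ⟨m, σ⟩ 1) ∈ N) {x : Ch X}
    (hx : x ∈ C A m) : φ x ∈ N := by
  refine map_supported φ _ N ?_ hx
  rintro ⟨k, σ⟩ ⟨rfl, hσ⟩
  exact h σ hσ

theorem eq_on_C {M : Type*} [AddCommGroup M] (φ ψ : Ch X →ₗ[ℤ] M) {A : Set X} {m : ℕ}
    (h : ∀ σ : C(Dl m, X), (∀ t, σ t ∈ A) →
      φ (Finsupp.single ⟨m, σ⟩ 1) = ψ (Finsupp.single ⟨m, σ⟩ 1)) {x : Ch X}
    (hx : x ∈ C A m) : φ x = ψ x := by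
  refine eq_on_supported φ ψ _ ?_ hx
  rintro ⟨k, σ⟩ ⟨rfl, hσ⟩
  exact h σ hσ

theorem bd_mem {A : Set X} {m : ℕ} {x : Ch X} (hx : x ∈ C A (m + 1)) : bd x ∈ C A m := by
  refine map_C bd _ (fun σ hσ => ?_) hx
  rw [bd_succ]
  exact Submodule.sum_mem _ fun i _ => Submodule.smul_mem _ _
    (single_mem_C (σ := σ.comp (face m i)) (fun t => hσ _) _)

theorem bd_eq_zero {A : Set X} {x : Ch X} (hx : x ∈ C A 0) : bd x = 0 := by
  have := map_C bd ⊥ (fun σ _ => by rw [bd_zero]; exact Submodule.zero_mem _) hx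
  simpa using this

theorem bd_mem' {A : Set X} {m : ℕ} {x : Ch X} (hx : x ∈ C A m) : bd x ∈ C A (m - 1) := by
  cases m with
  | zero => rw [bd_eq_zero hx]; exact Submodule.zero_mem _
  | succ m => exact bd_mem hx

theorem push_mem (g : C(X, Y)) {A : Set X} {A' : Set Y} (h : MapsTo g A A') {m : ℕ} {x : Ch X}
    (hx : x ∈ C A m) : push g x ∈ C A' m := by
  refine map_C (push g) _ (fun σ hσ => ?_) hx
  rw [push_single]
  exact single_mem_C (fun t => h (hσ t)) _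

theorem push_push (g : C(X, Y)) (g' : C(Y, W)) (x : Ch X) :
    push g' (push g x) = push (g'.comp g) x := by
  have : (push g').comp (push g) = push (g'.comp g) := by
    apply lext
    rintro ⟨m, σ⟩
    simp only [LinearMap.comp_apply, push_single]
    rfl
  exact LinearMap.congr_fun this x

theorem push_id (x : Ch X) : push (ContinuousMap.id X) x = x := by
  have : push (ContinuousMap.id X) = LinearMap.id := by
    apply lext
    rintro ⟨m, σ⟩
    simp only [push_single]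
    rfl
  exact LinearMap.congr_fun this x

theorem push_congr {g g' : C(X, Y)} {A : Set X} (h : EqOn g g' A) {m : ℕ} {x : Ch X}
    (hx : x ∈ C A m) : push g x = push g' x := by
  refine eq_on_C _ _ (fun σ hσ => ?_) hx
  rw [push_single, push_single]
  congr 2
  ext t
  exact h (hσ t)

theorem push_eq_self {g : C(X, X)} {A : Set X} (h : ∀ z ∈ A, g z = z) {m : ℕ} {x : Ch X}
    (hx : x ∈ C A m) : push g x = x := by
  rw [push_congr (g' := ContinuousMap.id X) h hx, push_id]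

theorem C_mono {A A' : Set X} (h : A ⊆ A') (m : ℕ) : C A m ≤ C A' m :=
  Finsupp.supported_mono fun _ hs => ⟨hs.1, fun t => h (hs.2 t)⟩

theorem C_inf (A A' : Set X) (m : ℕ) : C A m ⊓ C A' m = C (A ∩ A') m := by
  unfold C
  rw [← Finsupp.supported_inter]
  congr 1
  ext s
  simp only [mem_inter_iff, mem_ofPred_eq]
  constructor
  · rintro ⟨⟨h1, h2⟩, -, h3⟩
    exact ⟨h1, fun t => ⟨h2 t, h3 t⟩⟩
  · rintro ⟨h1, h2⟩
    exact ⟨⟨h1, fun t => (h2 t).1⟩, h1, fun t => (h2 t).2⟩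

theorem mem_C_inter {A A' : Set X} {m : ℕ} {x : Ch X} (h : x ∈ C A m) (h' : x ∈ C A' m) :
    x ∈ C (A ∩ A') m := by
  rw [← C_inf]; exact ⟨h, h'⟩

instance : IsEmpty (Dl 0) := ⟨fun t => by simpa using t.2.2⟩

theorem C_zero (A A' : Set X) : C A 0 = C A' 0 := by
  unfold C
  congr 1
  ext ⟨m, σ⟩
  constructor
  · rintro ⟨rfl, -⟩
    exact ⟨rfl, fun t => isEmptyElim t⟩
  · rintro ⟨rfl, -⟩
    exact ⟨rfl, fun t => isEmptyElim t⟩

theorem C_empty (m : ℕ) : C (∅ : Set X) (m + 1) = ⊥ := by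
  rw [eq_bot_iff]
  intro x hx
  exact map_C LinearMap.id ⊥ (fun σ hσ => (hσ (Classical.arbitrary _)).elim) hx

/-- every chain is carried by a compact set -/
theorem exists_compact {A : Set X} {m : ℕ} {x : Ch X} (hx : x ∈ C A m) :
    ∃ K, IsCompact K ∧ K ⊆ A ∧ x ∈ C K m := by
  refine ⟨⋃ s ∈ x.support, range s.2, ?_, ?_, ?_⟩
  · exact x.support.isCompact_biUnion fun s _ => isCompact_range s.2.continuous
  · intro z hz
    simp only [mem_iUnion] at hz
    obtain ⟨s, hs, t, rfl⟩ := hz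
    exact (hx hs).2 t
  · intro s hs
    refine ⟨(hx hs).1, fun t => ?_⟩
    simp only [mem_iUnion]
    exact ⟨s, hs, t, rfl⟩

theorem mem_Z {A : Set X} {m : ℕ} {x : Ch X} : x ∈ Z A m ↔ x ∈ C A m ∧ bd x = 0 := Iff.rfl

theorem mem_B {A : Set X} {m : ℕ} {x : Ch X} : x ∈ B A m ↔ ∃ y ∈ C A (m + 1), bd y = x := Iff.rfl

theorem B_le_Z (A : Set X) (m : ℕ) : B A m ≤ Z A m := by
  rintro _ ⟨y, hy, rfl⟩
  exact ⟨bd_mem hy, bd_bd y⟩

theorem Z_mono {A A' : Set X} (h : A ⊆ A') (m : ℕ) : Z A m ≤ Z A' m :=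
  fun _ hx => ⟨C_mono h m hx.1, hx.2⟩

theorem B_mono {A A' : Set X} (h : A ⊆ A') (m : ℕ) : B A m ≤ B A' m :=
  Submodule.map_mono (C_mono h _)

theorem push_mem_Z (g : C(X, Y)) {A : Set X} {A' : Set Y} (h : MapsTo g A A') {m : ℕ} {x : Ch X}
    (hx : x ∈ Z A m) : push g x ∈ Z A' m :=
  mem_Z.2 ⟨push_mem g h hx.1, by rw [bd_push, (mem_Z.1 hx).2, map_zero]⟩

theorem push_mem_B (g : C(X, Y)) {A : Set X} {A' : Set Y} (h : MapsTo g A A') {m : ℕ} {x : Ch X}
    (hx : x ∈ B A m) : push g x ∈ B A' m := by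
  obtain ⟨y, hy, rfl⟩ := hx
  exact ⟨push g y, push_mem g h hy, bd_push g y⟩

/-! ### Subquotients and homology -/

/-- the subquotient `P / (P ⊓ Q)` -/
def Hq {G : Type*} [AddCommGroup G] (P Q : Submodule ℤ G) : Type _ := P ⧸ Q.submoduleOf P

namespace Hq

variable {G G' : Type*} [AddCommGroup G] [AddCommGroup G']

instance (P Q : Submodule ℤ G) : AddCommGroup (Hq P Q) :=
  inferInstanceAs (AddCommGroup (P ⧸ Q.submoduleOf P))

/-- class map -/
def mkL (P Q : Submodule ℤ G) : P →ₗ[ℤ] Hq P Q := (Q.submoduleOf P).mkQ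

/-- class of an element -/
def mk {P : Submodule ℤ G} (Q : Submodule ℤ G) (x : G) (hx : x ∈ P) : Hq P Q := mkL P Q ⟨x, hx⟩

theorem mk_surj {P Q : Submodule ℤ G} (c : Hq P Q) : ∃ x hx, mk Q x hx = c := by
  obtain ⟨⟨x, hx⟩, rfl⟩ := (Q.submoduleOf P).mkQ_surjective c
  exact ⟨x, hx, rfl⟩

theorem mk_eq_zero {P Q : Submodule ℤ G} {x : G} {hx : x ∈ P} : mk Q x hx = 0 ↔ x ∈ Q :=
  Submodule.Quotient.mk_eq_zero _

theorem mk_eq_mk {P Q : Submodule ℤ G} {x y : G} {hx : x ∈ P} {hy : y ∈ P} :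
    mk Q x hx = mk Q y hy ↔ x - y ∈ Q :=
  Submodule.Quotient.eq _

theorem mk_add {P Q : Submodule ℤ G} {x y : G} (hx : x ∈ P) (hy : y ∈ P) :
    mk Q x hx + mk Q y hy = mk Q (x + y) (P.add_mem hx hy) := rfl

theorem mk_sub {P Q : Submodule ℤ G} {x y : G} (hx : x ∈ P) (hy : y ∈ P) :
    mk Q x hx - mk Q y hy = mk Q (x - y) (P.sub_mem hx hy) := rfl

theorem mk_neg {P Q : Submodule ℤ G} {x : G} (hx : x ∈ P) :
    -mk Q x hx = mk Q (-x) (P.neg_mem hx) := rfl

theorem mk_smul {P Q : Submodule ℤ G} (c : ℤ) {x : G} (hx : x ∈ P) :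
    c • mk Q x hx = mk Q (c • x) (P.smul_mem c hx) := rfl

/-- a linear map on `P` killing `Q` descends -/
def lift {P Q : Submodule ℤ G} (φ : P →ₗ[ℤ] G') (h : ∀ x : P, (x : G) ∈ Q → φ x = 0) :
    Hq P Q →ₗ[ℤ] G' :=
  (Q.submoduleOf P).liftQ φ (fun x hx => h x hx)

theorem lift_mk {P Q : Submodule ℤ G} (φ : P →ₗ[ℤ] G') (h : ∀ x : P, (x : G) ∈ Q → φ x = 0)
    (x : G) (hx : x ∈ P) : lift φ h (mk Q x hx) = φ ⟨x, hx⟩ := rfl

/-- map of subquotients induced by a linear map -/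
def map {P Q : Submodule ℤ G} {P' Q' : Submodule ℤ G'} (φ : G →ₗ[ℤ] G')
    (hP : ∀ x ∈ P, φ x ∈ P') (hQ : ∀ x ∈ P, x ∈ Q → φ x ∈ Q') : Hq P Q →ₗ[ℤ] Hq P' Q' :=
  lift ((mkL P' Q').comp (φ.restrict hP)) (fun x hx => mk_eq_zero.2 (hQ x x.2 hx))

theorem map_mk {P Q : Submodule ℤ G} {P' Q' : Submodule ℤ G'} (φ : G →ₗ[ℤ] G')
    (hP : ∀ x ∈ P, φ x ∈ P') (hQ : ∀ x ∈ P, x ∈ Q → φ x ∈ Q') (x : G) (hx : x ∈ P) :
    map φ hP hQ (mk Q x hx) = mk Q' (φ x) (hP x hx) := rfl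

end Hq

/-- reduced singular homology of `A`; `H A (k+1)` is the reduced group in dimension `k` -/
abbrev H (A : Set X) (m : ℕ) := Hq (Z A m) (B A m)

/-- the class of a cycle -/
abbrev cls {A : Set X} {m : ℕ} (x : Ch X) (hx : x ∈ Z A m) : H A m := Hq.mk (B A m) x hx

/-- map induced on homology -/
def Hmap (g : C(X, Y)) {A : Set X} {A' : Set Y} (h : MapsTo g A A') (m : ℕ) :
    H A m →ₗ[ℤ] H A' m :=
  Hq.map (push g) (fun _ hx => push_mem_Z g h hx) (fun _ _ hx => push_mem_B g h hx)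

/-- map induced by an inclusion -/
def Hinc {A A' : Set X} (h : A ⊆ A') (m : ℕ) : H A m →ₗ[ℤ] H A' m :=
  Hq.map LinearMap.id (fun _ hx => Z_mono h m hx) (fun _ _ hx => B_mono h m hx)

theorem Hmap_cls (g : C(X, Y)) {A : Set X} {A' : Set Y} (h : MapsTo g A A') {m : ℕ} (x : Ch X)
    (hx : x ∈ Z A m) : Hmap g h m (cls x hx) = cls (push g x) (push_mem_Z g h hx) := rfl

theorem Hinc_cls {A A' : Set X} (h : A ⊆ A') {m : ℕ} (x : Ch X) (hx : x ∈ Z A m) :
    Hinc h m (cls x hx) = cls x (Z_mono h m hx) := rfl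

theorem Hmap_Hmap (g : C(X, Y)) (g' : C(Y, W)) {A : Set X} {A' : Set Y} {A'' : Set W}
    (h : MapsTo g A A') (h' : MapsTo g' A' A'') (m : ℕ) (c : H A m) :
    Hmap g' h' m (Hmap g h m c) = Hmap (g'.comp g) (h'.comp h) m c := by
  obtain ⟨x, hx, rfl⟩ := Hq.mk_surj c
  simp only [Hmap_cls, push_push]

theorem Hmap_congr {g g' : C(X, Y)} {A : Set X} {A' : Set Y} (h : MapsTo g A A')
    (h' : MapsTo g' A A') (he : EqOn g g' A) (m : ℕ) : Hmap g h m = Hmap g' h' m := by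
  ext c
  obtain ⟨x, hx, rfl⟩ := Hq.mk_surj c
  simp only [Hmap_cls, push_congr he hx.1]

theorem Hmap_eq_Hinc {g : C(X, X)} {A A' : Set X} (h : MapsTo g A A') (h' : A ⊆ A')
    (he : ∀ z ∈ A, g z = z) (m : ℕ) : Hmap g h m = Hinc h' m := by
  ext c
  obtain ⟨x, hx, rfl⟩ := Hq.mk_surj c
  simp only [Hmap_cls, Hinc_cls, push_eq_self he hx.1]

theorem Hinc_self {A : Set X} (h : A ⊆ A) (m : ℕ) (c : H A m) : Hinc h m c = c := by
  obtain ⟨x, hx, rfl⟩ := Hq.mk_surj c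
  rfl

theorem Hinc_Hinc {A A' A'' : Set X} (h : A ⊆ A') (h' : A' ⊆ A'') (m : ℕ) (c : H A m) :
    Hinc h' m (Hinc h m c) = Hinc (h.trans h') m c := by
  obtain ⟨x, hx, rfl⟩ := Hq.mk_surj c
  rfl

theorem Hinc_Hmap (g : C(X, Y)) {A : Set X} {A' A'' : Set Y} (h : MapsTo g A A') (h' : A' ⊆ A'')
    (m : ℕ) (c : H A m) : Hinc h' m (Hmap g h m c) = Hmap g (h.mono_right h') m c := by
  obtain ⟨x, hx, rfl⟩ := Hq.mk_surj c
  rfl

theorem Hmap_Hinc (g : C(X, Y)) {A A' : Set X} {A'' : Set Y} (h : A ⊆ A') (h' : MapsTo g A' A'')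
    (m : ℕ) (c : H A m) : Hmap g h' m (Hinc h m c) = Hmap g (h'.mono_left h) m c := by
  obtain ⟨x, hx, rfl⟩ := Hq.mk_surj c
  rfl

/-- the pair of graded submodules `(K, K')` of chains has no relative homology -/
def AcK (K K' : ℕ → Submodule ℤ (Ch X)) : Prop :=
  ∀ m, ∀ x ∈ K m, bd x ∈ K' (m - 1) → ∃ y ∈ K (m + 1), x - bd y ∈ K' m

/-- the pair `(A', A)` has no relative homology -/
def Ac (A' A : Set X) : Prop := AcK (C A') (C A)

/-- `A` has vanishing reduced homology -/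
def Acyc (A : Set X) : Prop := ∀ m, Z A m ≤ B A m

/-- the reduced homology of `A` is concentrated in vertex degree `a` and free of rank `μ` -/
def Conc (A : Set X) (a μ : ℕ) : Prop :=
  (∀ m, m ≠ a → Z A m ≤ B A m) ∧ Nonempty (H A a ≃ₗ[ℤ] (Fin μ → ℤ))

/-- `A` is covered by `A₁, A₂` excisively, and `A₀` is their intersection -/
structure Exc (A A₁ A₂ A₀ : Set X) : Prop where
  sub₁ : A₁ ⊆ A
  sub₂ : A₂ ⊆ A
  int₁ : A₀ ⊆ A₁
  int₂ : A₀ ⊆ A₂
  inter : A₁ ∩ A₂ ⊆ A₀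
  small : AcK (C A) (fun m => C A₁ m ⊔ C A₂ m)

end Pool.Agent.Shared.SingHom
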