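import Pool.Agent.Shared.SingHom.Subdiv

/-! Acyclic pairs, embeddings, Mayer-Vietoris, punctured vector spaces. -/

set_option autoImplicit false

open Set

noncomputable section

namespace Pool.Agent.Shared.SingHom

variable {X Y : Type*} [TopologicalSpace X] [TopologicalSpace Y]

theorem AcK.trans {K K' K'' : ℕ → Submodule ℤ (Ch X)} (h : AcK K K') (h' : AcK K' K'')
    (hle : ∀ m, K' m ≤ K m) (hle' : ∀ m, K'' m ≤ K' m) : AcK K K'' := by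
  intro m x hx hb
  obtain ⟨y, hy, h1⟩ := h m x hx (hle' _ hb)
  obtain ⟨y', hy', h2⟩ := h' m _ h1 (by rwa [map_sub, bd_bd, sub_zero])
  exact ⟨y + y', Submodule.add_mem _ hy (hle _ hy'), by rwa [map_add, ← sub_sub]⟩

theorem Ac.trans {A A' A'' : Set X} (h : Ac A'' A') (h' : Ac A' A) (hle : A' ⊆ A'')
    (hle' : A ⊆ A') : Ac A'' A := AcK.trans h h' (C_mono hle) (C_mono hle')

theorem Ac.bijective {A A' : Set X} (h : Ac A' A) (hA : A ⊆ A') (m : ℕ) :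
    Function.Bijective (Hinc hA m) := by
  constructor
  · rw [injective_iff_map_eq_zero]
    intro c hc
    obtain ⟨x, hx, rfl⟩ := Hq.mk_surj c
    obtain ⟨y, hy, rfl⟩ := Hq.mk_eq_zero.1 hc
    obtain ⟨y', -, h2⟩ := h (m + 1) y hy hx.1
    exact Hq.mk_eq_zero.2 ⟨_, h2, by rw [map_sub, bd_bd, sub_zero]⟩
  · intro c
    obtain ⟨x, hx, rfl⟩ := Hq.mk_surj c
    obtain ⟨y, hy, h2⟩ := h m x hx.1 (by rw [(mem_Z.1 hx).2]; exact Submodule.zero_mem _)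
    refine ⟨cls (x - bd y) (mem_Z.2 ⟨h2, by rw [map_sub, bd_bd, (mem_Z.1 hx).2, sub_zero]⟩), ?_⟩
    rw [Hinc_cls, Hq.mk_eq_mk]
    exact ⟨-y, Submodule.neg_mem _ hy, by simp⟩

theorem ac_of_bijective {A A' : Set X} (hA : A ⊆ A')
    (h : ∀ m, Function.Bijective (Hinc hA m)) : Ac A' A := by
  intro m x hx hb
  cases m with
  | zero => exact ⟨0, Submodule.zero_mem _, by simpa [C_zero A A'] using hx⟩
  | succ m =>
    have h1 : cls (bd x) (mem_Z.2 ⟨hb, bd_bd x⟩ : bd x ∈ Z A m) = 0 := by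
      apply (h m).1
      rw [map_zero, Hinc_cls]
      exact Hq.mk_eq_zero.2 ⟨x, hx, rfl⟩
    obtain ⟨y, hy, e⟩ := Hq.mk_eq_zero.1 h1
    have h2 : x - y ∈ Z A' (m + 1) :=
      mem_Z.2 ⟨Submodule.sub_mem _ hx (C_mono hA _ hy), by rw [map_sub, e, sub_self]⟩
    obtain ⟨c, hc⟩ := (h (m + 1)).2 (cls _ h2)
    obtain ⟨z, hz, rfl⟩ := Hq.mk_surj c
    rw [Hinc_cls, Hq.mk_eq_mk] at hc
    obtain ⟨u, hu, e'⟩ := hc
    refine ⟨-u, Submodule.neg_mem _ hu, ?_⟩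
    have : x - bd (-u) = z + y := by rw [map_neg, e']; abel
    rw [this]
    exact Submodule.add_mem _ hz.1 hy

theorem Z_le_B_iff {A : Set X} {m : ℕ} : Z A m ≤ B A m ↔ ∀ c : H A m, c = 0 := by
  constructor
  · intro h c
    obtain ⟨x, hx, rfl⟩ := Hq.mk_surj c
    exact Hq.mk_eq_zero.2 (h hx)
  · intro h x hx
    exact Hq.mk_eq_zero.1 (h (cls x hx))

theorem Z_le_B_of_equiv {A : Set X} {A' : Set Y} {m : ℕ} (h : Z A m ≤ B A m)
    (e : H A m ≃ₗ[ℤ] H A' m) : Z A' m ≤ B A' m := by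
  rw [Z_le_B_iff] at h ⊢
  intro c
  rw [← e.apply_symm_apply c, h (e.symm c), map_zero]

theorem Conc.of_equiv {A : Set X} {A' : Set Y} {a μ : ℕ} (h : Conc A a μ)
    (e : ∀ m, Nonempty (H A m ≃ₗ[ℤ] H A' m)) : Conc A' a μ :=
  ⟨fun m hm => Z_le_B_of_equiv (h.1 m hm) (e m).some, ⟨(e a).some.symm.trans h.2.some⟩⟩

theorem Acyc.of_equiv {A : Set X} {A' : Set Y} (h : Acyc A)
    (e : ∀ m, Nonempty (H A m ≃ₗ[ℤ] H A' m)) : Acyc A' :=
  fun m => Z_le_B_of_equiv (h m) (e m).some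

theorem Ac.conc_iff {A A' : Set X} (h : Ac A' A) (hA : A ⊆ A') {a μ : ℕ} :
    Conc A' a μ ↔ Conc A a μ :=
  ⟨fun h' => h'.of_equiv fun m => ⟨(LinearEquiv.ofBijective _ (h.bijective hA m)).symm⟩,
    fun h' => h'.of_equiv fun m => ⟨LinearEquiv.ofBijective _ (h.bijective hA m)⟩⟩

theorem Ac.acyc_iff {A A' : Set X} (h : Ac A' A) (hA : A ⊆ A') : Acyc A' ↔ Acyc A :=
  ⟨fun h' => h'.of_equiv fun m => ⟨(LinearEquiv.ofBijective _ (h.bijective hA m)).symm⟩,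
    fun h' => h'.of_equiv fun m => ⟨LinearEquiv.ofBijective _ (h.bijective hA m)⟩⟩

theorem Acyc.conc {A : Set X} (h : Acyc A) (a : ℕ) : Conc A a 0 := by
  refine ⟨fun m _ => h m, ?_⟩
  have : Subsingleton (H A a) := ⟨fun x y => by
    rw [Z_le_B_iff.1 (h a) x, Z_le_B_iff.1 (h a) y]⟩
  exact ⟨LinearEquiv.ofSubsingleton _ _⟩

theorem Hmap_bijective_of_embedding (g : C(X, Y)) (hg : Topology.IsEmbedding g) {A : Set X}
    {A' : Set Y} (h : MapsTo g A A') (hA : A' ⊆ g '' A) (m : ℕ) :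
    Function.Bijective (Hmap g h m) := by
  constructor
  · rw [injective_iff_map_eq_zero]
    intro c hc
    obtain ⟨x, hx, rfl⟩ := Hq.mk_surj c
    obtain ⟨y, hy, e⟩ := Hq.mk_eq_zero.1 hc
    obtain ⟨y', hy', rfl⟩ := exists_push_eq g hg (C_mono hA _ hy)
    rw [bd_push] at e
    exact Hq.mk_eq_zero.2 ⟨y', hy', push_injective g hg.injective e⟩
  · intro c
    obtain ⟨x, hx, rfl⟩ := Hq.mk_surj c
    obtain ⟨x', hx', rfl⟩ := exists_push_eq g hg (C_mono hA _ hx.1)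
    refine ⟨cls x' (mem_Z.2 ⟨hx', push_injective g hg.injective ?_⟩), rfl⟩
    rw [← bd_push, (mem_Z.1 hx).2, map_zero]

theorem conc_image_iff (g : C(X, Y)) (hg : Topology.IsEmbedding g) {A : Set X} {a μ : ℕ} :
    Conc (g '' A) a μ ↔ Conc A a μ :=
  ⟨fun h' => h'.of_equiv fun m => ⟨(LinearEquiv.ofBijective _
      (Hmap_bijective_of_embedding g hg (mapsTo_image g A) Subset.rfl m)).symm⟩,
    fun h' => h'.of_equiv fun m => ⟨LinearEquiv.ofBijective _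
      (Hmap_bijective_of_embedding g hg (mapsTo_image g A) Subset.rfl m)⟩⟩

theorem acyc_image_iff (g : C(X, Y)) (hg : Topology.IsEmbedding g) {A : Set X} :
    Acyc (g '' A) ↔ Acyc A :=
  ⟨fun h' => h'.of_equiv fun m => ⟨(LinearEquiv.ofBijective _
      (Hmap_bijective_of_embedding g hg (mapsTo_image g A) Subset.rfl m)).symm⟩,
    fun h' => h'.of_equiv fun m => ⟨LinearEquiv.ofBijective _
      (Hmap_bijective_of_embedding g hg (mapsTo_image g A) Subset.rfl m)⟩⟩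

theorem ac_image_iff (g : C(X, Y)) (hg : Topology.IsEmbedding g) {A A' : Set X} :
    Ac (g '' A') (g '' A) ↔ Ac A' A := by
  constructor
  · intro h m x hx hb
    obtain ⟨y, hy, h2⟩ := h m (push g x) (push_mem g (mapsTo_image g A') hx)
      (by rw [bd_push]; exact push_mem g (mapsTo_image g A) hb)
    obtain ⟨y', hy', rfl⟩ := exists_push_eq g hg hy
    rw [bd_push, ← map_sub] at h2
    exact ⟨y', hy', mem_C_of_push g hg h2⟩
  · intro h m x hx hb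
    obtain ⟨x', hx', rfl⟩ := exists_push_eq g hg hx
    rw [bd_push] at hb
    obtain ⟨y, hy, h2⟩ := h m x' hx' (mem_C_of_push g hg hb)
    refine ⟨push g y, push_mem g (mapsTo_image g A') hy, ?_⟩
    rw [bd_push, ← map_sub]
    exact push_mem g (mapsTo_image g A) h2

theorem Exc.symm {A A₁ A₂ A₀ : Set X} (h : Exc A A₁ A₂ A₀) : Exc A A₂ A₁ A₀ :=
  ⟨h.sub₂, h.sub₁, h.int₂, h.int₁, fun _ hz => h.inter ⟨hz.2, hz.1⟩, by
    simpa only [sup_comm] using h.small⟩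

theorem Exc.split_chain {A A₁ A₂ A₀ : Set X} (h : Exc A A₁ A₂ A₀) {m : ℕ} {y : Ch X}
    (hy : y ∈ C A m) (hb : bd y ∈ C A₁ (m - 1) ⊔ C A₂ (m - 1)) :
    ∃ y₁ ∈ C A₁ m, ∃ y₂ ∈ C A₂ m, y - y₁ - y₂ ∈ B A m := by
  obtain ⟨u, hu, h1⟩ := h.small m y hy hb
  obtain ⟨y₁, h₁, y₂, h₂, e⟩ := Submodule.mem_sup.1 h1
  exact ⟨y₁, h₁, y₂, h₂, u, hu, by rw [sub_sub, e]; abel⟩

theorem Exc.mem_C {A A₁ A₂ A₀ : Set X} (h : Exc A A₁ A₂ A₀) {m : ℕ} {x : Ch X}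
    (h₁ : x ∈ C A₁ m) (h₂ : x ∈ C A₂ m) : x ∈ C A₀ m := C_mono h.inter _ (mem_C_inter h₁ h₂)

theorem Exc.mid_chain {A A₁ A₂ A₀ : Set X} (h : Exc A A₁ A₂ A₀) {m : ℕ} {x₁ x₂ : Ch X}
    (h₁ : x₁ ∈ C A₁ m) (h₂ : x₂ ∈ C A₂ m) (hx : x₁ + x₂ ∈ B A m) :
    ∃ z ∈ C A₀ m, x₁ - z ∈ B A₁ m ∧ x₂ + z ∈ B A₂ m := by
  obtain ⟨y, hy, e⟩ := hx
  obtain ⟨y₁, k₁, y₂, k₂, k⟩ := h.split_chain hy (by rw [e]; exact Submodule.add_mem_sup h₁ h₂)
  have k' := (mem_Z.1 (B_le_Z _ _ k)).2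
  rw [map_sub, map_sub, e] at k'
  have e2 : x₁ - bd y₁ = bd y₂ - x₂ := by
    rw [← sub_eq_zero, ← k']; abel
  refine ⟨x₁ - bd y₁, h.mem_C (Submodule.sub_mem _ h₁ (bd_mem k₁)) ?_, ⟨y₁, k₁, by abel⟩,
    ⟨y₂, k₂, by rw [e2]; abel⟩⟩
  rw [e2]
  exact Submodule.sub_mem _ (bd_mem k₂) h₂

/-- Mayer-Vietoris, exactness at `H A₀`, element form -/
theorem Exc.mem_B {A A₁ A₂ A₀ : Set X} (h : Exc A A₁ A₂ A₀) {m : ℕ}
    (hA : Z A (m + 1) ≤ B A (m + 1)) {x : Ch X} (hx : x ∈ Z A₀ m) (h₁ : x ∈ B A₁ m)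
    (h₂ : x ∈ B A₂ m) : x ∈ B A₀ m := by
  have _ := hx
  obtain ⟨y₁, k₁, e₁⟩ := h₁
  obtain ⟨y₂, k₂, e₂⟩ := h₂
  obtain ⟨z, hz, h3, -⟩ := h.mid_chain k₁ (Submodule.neg_mem _ k₂) (hA (mem_Z.2
    ⟨Submodule.add_mem _ (C_mono h.sub₁ _ k₁) (Submodule.neg_mem _ (C_mono h.sub₂ _ k₂)), by
      rw [map_add, map_neg, e₁, e₂, add_neg_cancel]⟩))
  have := (mem_Z.1 (B_le_Z _ _ h3)).2
  rw [map_sub, e₁, sub_eq_zero] at this
  exact ⟨z, hz, this.symm⟩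

/-- Mayer-Vietoris, exactness at `H A₁ × H A₂`, element form -/
theorem Exc.exists_mid {A A₁ A₂ A₀ : Set X} (h : Exc A A₁ A₂ A₀) {m : ℕ} {x₁ x₂ : Ch X}
    (h₁ : x₁ ∈ Z A₁ m) (h₂ : x₂ ∈ Z A₂ m) (hx : x₁ + x₂ ∈ B A m) :
    ∃ z ∈ Z A₀ m, x₁ - z ∈ B A₁ m ∧ x₂ + z ∈ B A₂ m := by
  obtain ⟨z, hz, h3, h4⟩ := h.mid_chain h₁.1 h₂.1 hx
  have := (mem_Z.1 (B_le_Z _ _ h3)).2
  rw [map_sub, (mem_Z.1 h₁).2, zero_sub, neg_eq_zero] at this
  exact ⟨z, mem_Z.2 ⟨hz, this⟩, h3, h4⟩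

theorem Exc.split_cycle {A A₁ A₂ A₀ : Set X} (h : Exc A A₁ A₂ A₀) {m : ℕ} {x : Ch X}
    (hx : x ∈ Z A m) : ∃ x₁ ∈ C A₁ m, ∃ x₂ ∈ C A₂ m, x - x₁ - x₂ ∈ B A m ∧ bd (x₁ + x₂) = 0 := by
  obtain ⟨x₁, k₁, x₂, k₂, k⟩ := h.split_chain hx.1
    (by rw [(mem_Z.1 hx).2]; exact Submodule.zero_mem _)
  have k' := (mem_Z.1 (B_le_Z _ _ k)).2
  rw [sub_sub, map_sub, (mem_Z.1 hx).2, zero_sub, neg_eq_zero] at k'
  exact ⟨x₁, k₁, x₂, k₂, k, k'⟩

theorem Exc.bd_mem_Z {A A₁ A₂ A₀ : Set X} (h : Exc A A₁ A₂ A₀) {m : ℕ} {x₁ x₂ : Ch X}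
    (k₁ : x₁ ∈ C A₁ (m + 1)) (k₂ : x₂ ∈ C A₂ (m + 1)) (k : bd (x₁ + x₂) = 0) :
    bd x₁ ∈ Z A₀ m := by
  refine mem_Z.2 ⟨h.mem_C (bd_mem k₁) ?_, bd_bd _⟩
  rw [map_add] at k
  rw [eq_neg_of_add_eq_zero_left k]
  exact Submodule.neg_mem _ (bd_mem k₂)

/-- Mayer-Vietoris, exactness at `H A`, element form -/
theorem Exc.exists_split {A A₁ A₂ A₀ : Set X} (h : Exc A A₁ A₂ A₀) {m : ℕ}
    (h₀ : Z A₀ m ≤ B A₀ m) {x : Ch X} (hx : x ∈ Z A (m + 1)) :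
    ∃ x₁ ∈ Z A₁ (m + 1), ∃ x₂ ∈ Z A₂ (m + 1), x - x₁ - x₂ ∈ B A (m + 1) := by
  obtain ⟨x₁, k₁, x₂, k₂, k, k'⟩ := h.split_cycle hx
  obtain ⟨z, hz, e⟩ := h₀ (h.bd_mem_Z k₁ k₂ k')
  refine ⟨x₁ - z, mem_Z.2 ⟨Submodule.sub_mem _ k₁ (C_mono h.int₁ _ hz), by
    rw [map_sub, e, sub_self]⟩, x₂ + z, mem_Z.2 ⟨Submodule.add_mem _ k₂ (C_mono h.int₂ _ hz), by
    rw [map_add, e, add_comm, ← map_add, k']⟩, ?_⟩
  convert k using 1
  abel

/-- Mayer-Vietoris connecting map -/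
theorem Exc.mv {A A₁ A₂ A₀ : Set X} (h : Exc A A₁ A₂ A₀) (m : ℕ) :
    ∃ δ : H A (m + 1) →ₗ[ℤ] H A₀ m,
      Function.Exact ((Hinc h.sub₁ (m + 1)).coprod (Hinc h.sub₂ (m + 1))) δ ∧
      Function.Exact δ ((Hinc h.int₁ m).prod (Hinc h.int₂ m)) := by
  let s : Ch X × Ch X →ₗ[ℤ] Ch X := LinearMap.fst ℤ _ _ + LinearMap.snd ℤ _ _
  let D : Submodule ℤ (Ch X × Ch X) :=
    (C A₁ (m + 1)).prod (C A₂ (m + 1)) ⊓ LinearMap.ker (bd.comp s)
  have hD : ∀ d ∈ D, s d ∈ Z A (m + 1) := fun d hd => mem_Z.2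
    ⟨Submodule.add_mem _ (C_mono h.sub₁ _ hd.1.1) (C_mono h.sub₂ _ hd.1.2), hd.2⟩
  have hD' : ∀ d ∈ D, (bd.comp (LinearMap.fst ℤ _ _)) d ∈ Z A₀ m := fun d hd =>
    h.bd_mem_Z hd.1.1 hd.1.2 hd.2
  let φ : D →ₗ[ℤ] H A (m + 1) := (Hq.mkL _ _).comp (s.restrict hD)
  let ψ : D →ₗ[ℤ] H A₀ m := (Hq.mkL _ _).comp ((bd.comp (LinearMap.fst ℤ _ _)).restrict hD')
  have hφ : ∀ d : D, φ d = cls (d.1.1 + d.1.2) (hD _ d.2) := fun _ => rfl
  have hψ : ∀ d : D, ψ d = cls (bd d.1.1) (hD' _ d.2) := fun _ => rfl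
  have hs : Function.Surjective φ := by
    intro c
    obtain ⟨x, hx, rfl⟩ := Hq.mk_surj c
    obtain ⟨x₁, k₁, x₂, k₂, k, k'⟩ := h.split_cycle hx
    refine ⟨⟨(x₁, x₂), ⟨k₁, k₂⟩, k'⟩, ?_⟩
    rw [hφ, eq_comm, Hq.mk_eq_mk, ← sub_sub]
    exact k
  have hk : LinearMap.ker φ ≤ LinearMap.ker ψ := by
    intro d hd
    rw [LinearMap.mem_ker, hφ, Hq.mk_eq_zero] at hd
    obtain ⟨z, hz, h3, -⟩ := h.mid_chain d.2.1.1 d.2.1.2 hd
    have := (mem_Z.1 (B_le_Z _ _ h3)).2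
    rw [map_sub, sub_eq_zero] at this
    rw [LinearMap.mem_ker, hψ, Hq.mk_eq_zero]
    exact ⟨z, hz, this.symm⟩
  let δ : H A (m + 1) →ₗ[ℤ] H A₀ m :=
    ((LinearMap.ker φ).liftQ ψ hk).comp (φ.quotKerEquivOfSurjective hs).symm.toLinearMap
  have hδ : ∀ d, δ (φ d) = ψ d := fun d => by
    simp [δ]
  refine ⟨δ, fun c => ?_, fun c => ?_⟩
  · obtain ⟨d, rfl⟩ := hs c
    rw [hδ, hψ, Hq.mk_eq_zero]
    constructor
    · rintro ⟨z, hz, e⟩
      have k' : bd (d.1.1 + d.1.2) = 0 := d.2.2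
      refine ⟨(cls (d.1.1 - z) (mem_Z.2 ⟨Submodule.sub_mem _ d.2.1.1 (C_mono h.int₁ _ hz), by
        rw [map_sub, e, sub_self]⟩), cls (d.1.2 + z) (mem_Z.2
          ⟨Submodule.add_mem _ d.2.1.2 (C_mono h.int₂ _ hz), by
            rw [map_add, e, add_comm, ← map_add, k']⟩)), ?_⟩
      rw [LinearMap.coprod_apply, Hinc_cls, Hinc_cls, Hq.mk_add, hφ]
      congr 1
      abel
    · rintro ⟨⟨c₁, c₂⟩, e⟩
      obtain ⟨x₁, k₁, rfl⟩ := Hq.mk_surj c₁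
      obtain ⟨x₂, k₂, rfl⟩ := Hq.mk_surj c₂
      have e' : φ ⟨(x₁, x₂), ⟨k₁.1, k₂.1⟩, by
          change bd (x₁ + x₂) = 0
          rw [map_add, (mem_Z.1 k₁).2, (mem_Z.1 k₂).2, add_zero]⟩ = φ d := e
      have := congrArg δ e'
      rw [hδ, hδ, hψ, hψ, eq_comm, Hq.mk_eq_mk] at this
      simpa [(mem_Z.1 k₁).2] using this
  · obtain ⟨x, hx, rfl⟩ := Hq.mk_surj c
    constructor
    · intro e
      obtain ⟨y₁, k₁, e₁⟩ := Hq.mk_eq_zero.1 (congrArg Prod.fst e)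
      obtain ⟨y₂, k₂, e₂⟩ := Hq.mk_eq_zero.1 (congrArg Prod.snd e)
      refine ⟨φ ⟨(y₁, -y₂), ⟨k₁, Submodule.neg_mem _ k₂⟩, ?_⟩, ?_⟩
      · change bd (y₁ + -y₂) = 0
        rw [map_add, map_neg, e₁, e₂]
        exact add_neg_cancel _
      · rw [hδ, hψ]
        congr 1
    · rintro ⟨c, e⟩
      obtain ⟨d, rfl⟩ := hs c
      rw [← e, hδ, hψ]
      have k' : bd (d.1.1 + d.1.2) = 0 := d.2.2
      rw [map_add] at k'
      refine Prod.ext (Hq.mk_eq_zero.2 ⟨d.1.1, d.2.1.1, rfl⟩)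
        (Hq.mk_eq_zero.2 ⟨-d.1.2, Submodule.neg_mem _ d.2.1.2, ?_⟩)
      rw [map_neg, ← eq_neg_of_add_eq_zero_left k']
      rfl

theorem Exc.exact_mid {A A₁ A₂ A₀ : Set X} (h : Exc A A₁ A₂ A₀) (m : ℕ) :
    Function.Exact ((Hinc h.int₁ m).prod (-Hinc h.int₂ m))
      ((Hinc h.sub₁ m).coprod (Hinc h.sub₂ m)) := by
  rintro ⟨c₁, c₂⟩
  obtain ⟨x₁, k₁, rfl⟩ := Hq.mk_surj c₁
  obtain ⟨x₂, k₂, rfl⟩ := Hq.mk_surj c₂
  constructor
  · intro e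
    obtain ⟨z, hz, h3, h4⟩ := h.exists_mid k₁ k₂ (Hq.mk_eq_zero.1 e)
    refine ⟨cls z hz, Prod.ext ?_ ?_⟩
    · exact (Hq.mk_eq_mk.2 h3).symm
    · exact (Hq.mk_eq_mk.2 (by simpa using h4) :
        cls x₂ k₂ = cls (-z) (Submodule.neg_mem _ (Z_mono h.int₂ m hz))).symm
  · rintro ⟨c, e⟩
    rw [← e]
    simp [Hinc_Hinc]

theorem Exc.conc_susp {A A₁ A₂ A₀ : Set X} (h : Exc A A₁ A₂ A₀) (h₁ : Acyc A₁) (h₂ : Acyc A₂)
    {a μ : ℕ} (h₀ : Conc A₀ a μ) : Conc A (a + 1) μ := by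
  refine ⟨fun m hm x hx => ?_, ?_⟩
  · cases m with
    | zero => exact B_mono h.sub₁ _ (h₁ 0 (mem_Z.2 ⟨C_zero A A₁ ▸ hx.1, (mem_Z.1 hx).2⟩))
    | succ m =>
      obtain ⟨x₁, k₁, x₂, k₂, k⟩ := h.exists_split (h₀.1 m (by omega)) hx
      have := Submodule.add_mem _ (Submodule.add_mem _ k (B_mono h.sub₂ _ (h₂ _ k₂)))
        (B_mono h.sub₁ _ (h₁ _ k₁))
      simpa using this
  · obtain ⟨δ, e1, e2⟩ := h.mv a
    refine ⟨(LinearEquiv.ofBijective δ ⟨?_, fun c => ?_⟩).trans h₀.2.some⟩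
    · rw [injective_iff_map_eq_zero]
      intro c hc
      obtain ⟨⟨c₁, c₂⟩, rfl⟩ := (e1 c).1 hc
      rw [Z_le_B_iff.1 (h₁ _) c₁, Z_le_B_iff.1 (h₂ _) c₂]
      exact map_zero _
    · exact (e2 c).1 (Prod.ext (Z_le_B_iff.1 (h₁ _) _) (Z_le_B_iff.1 (h₂ _) _))

theorem Exc.conc_attach {A A₁ A₂ A₀ : Set X} (h : Exc A A₁ A₂ A₀) {a μ ν : ℕ} (hA : Conc A a μ)
    (h₂ : Acyc A₂) (h₀ : Conc A₀ a ν) : Conc A₁ a (μ + ν) := by
  refine ⟨fun m hm x hx => ?_, ?_⟩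
  · obtain ⟨z, hz, h3, -⟩ := h.exists_mid hx (Submodule.zero_mem _)
      (by rw [add_zero]; exact hA.1 m hm (Z_mono h.sub₁ _ hx))
    simpa using Submodule.add_mem _ h3 (B_mono h.int₁ _ (h₀.1 m hm hz))
  · have hi : Function.Injective (Hinc h.int₁ a) := by
      rw [injective_iff_map_eq_zero]
      intro c hc
      obtain ⟨x, hx, rfl⟩ := Hq.mk_surj c
      exact Hq.mk_eq_zero.2 (h.mem_B (hA.1 _ (by omega)) hx (Hq.mk_eq_zero.1 hc)
        (h₂ _ (Z_mono h.int₂ _ hx)))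
    have hs : Function.Surjective (Hinc h.sub₁ a) := by
      intro c
      obtain ⟨x, hx, rfl⟩ := Hq.mk_surj c
      cases a with
      | zero => exact ⟨cls x (mem_Z.2 ⟨C_zero A A₁ ▸ hx.1, (mem_Z.1 hx).2⟩), rfl⟩
      | succ a =>
        obtain ⟨x₁, k₁, x₂, k₂, k⟩ := h.exists_split (h₀.1 a (by omega)) hx
        refine ⟨cls x₁ k₁, (Hq.mk_eq_mk.2 ?_).symm⟩
        simpa using Submodule.add_mem _ k (B_mono h.sub₂ _ (h₂ _ k₂))
    have he : Function.Exact (Hinc h.int₁ a) (Hinc h.sub₁ a) := by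
      intro c
      obtain ⟨x, hx, rfl⟩ := Hq.mk_surj c
      constructor
      · intro e
        obtain ⟨z, hz, h3, -⟩ := h.exists_mid hx (Submodule.zero_mem _)
          (by rw [add_zero]; exact Hq.mk_eq_zero.1 e)
        exact ⟨cls z hz, (Hq.mk_eq_mk.2 h3).symm⟩
      · rintro ⟨c, e⟩
        obtain ⟨z, hz, rfl⟩ := Hq.mk_surj c
        rw [← e]
        exact Hq.mk_eq_zero.2 (B_mono h.sub₂ _ (h₂ _ (Z_mono h.int₂ _ hz)))
    obtain ⟨eA⟩ := hA.2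
    obtain ⟨e₀⟩ := h₀.2
    have : Module.Free ℤ (H A a) := Module.Free.of_equiv eA.symm
    obtain ⟨l, hl⟩ := Module.projective_lifting_property (Hinc h.sub₁ a) LinearMap.id hs
    let e := (he.splitSurjectiveEquiv hi ⟨l, hl⟩).1
    refine ⟨(e.trans (e₀.prodCongr eA)).trans (LinearEquiv.ofFinrankEq _ _ ?_)⟩
    simp [add_comm]

theorem conc_empty : Conc (∅ : Set X) 0 1 := by
  refine ⟨fun m hm x hx => ?_, ?_⟩
  · obtain ⟨m, rfl⟩ := Nat.exists_eq_succ_of_ne_zero hm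
    have := (mem_Z.1 hx).1
    rw [C_empty, Submodule.mem_bot] at this
    rw [this]
    exact Submodule.zero_mem _
  · let σ : C(Dl 0, X) := ⟨isEmptyElim, continuous_of_discreteTopology⟩
    have hσ : Finsupp.single (⟨0, σ⟩ : Sx X) (1 : ℤ) ∈ Z (∅ : Set X) 0 :=
      mem_Z.2 ⟨single_mem_C (fun t => isEmptyElim t) _, bd_zero σ⟩
    have hb : Function.Bijective (LinearMap.toSpanSingleton ℤ _ (cls _ hσ)) := by
      constructor
      · rw [injective_iff_map_eq_zero]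
        intro c hc
        rw [LinearMap.toSpanSingleton_apply, Hq.mk_smul, Hq.mk_eq_zero] at hc
        obtain ⟨y, hy, e⟩ := mem_B.1 hc
        rw [C_empty, Submodule.mem_bot] at hy
        rw [hy, map_zero, eq_comm] at e
        simpa using e
      · intro c
        obtain ⟨x, hx, rfl⟩ := Hq.mk_surj c
        have : x ∈ Submodule.span ℤ {Finsupp.single (⟨0, σ⟩ : Sx X) (1 : ℤ)} := by
          refine map_C LinearMap.id _ (fun τ _ => ?_) hx.1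
          have : τ = σ := by ext t; exact isEmptyElim t
          rw [this]
          exact Submodule.mem_span_singleton_self _
        obtain ⟨c, rfl⟩ := Submodule.mem_span_singleton.1 this
        exact ⟨c, rfl⟩
    exact ⟨(LinearEquiv.ofBijective _ hb).symm.trans (LinearEquiv.funUnique (Fin 1) ℤ ℤ).symm⟩

theorem acyc_singleton (v : X) : Acyc ({v} : Set X) := by
  let κ : ℕ → Ch X := fun m => Finsupp.single ⟨m, ContinuousMap.const _ v⟩ 1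
  let K : Ch X →ₗ[ℤ] Ch X := Finsupp.linearCombination ℤ (fun s : Sx X => κ (s.1 + 1))
  have hK : ∀ m (σ : C(Dl m, X)), K (Finsupp.single ⟨m, σ⟩ 1) = κ (m + 1) := by
    intro m σ
    simp [K]
  have hb : ∀ m, bd (κ (m + 1)) = (∑ i : Fin (m + 1), (-1 : ℤ) ^ (i : ℕ)) • κ m := by
    intro m
    rw [bd_succ, Finset.sum_smul]
    rfl
  intro m x hx
  have h1 : (bd.comp K + K.comp bd) x = LinearMap.id (R := ℤ) x := by
    refine eq_on_C _ _ (fun σ hσ => ?_) hx.1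
    have e : σ = ContinuousMap.const _ v := by ext t; exact hσ t
    subst e
    simp only [LinearMap.add_apply, LinearMap.comp_apply, hK, hb, LinearMap.id_apply]
    cases m with
    | zero => simp [bd_zero, κ]
    | succ m =>
      change _ + K (bd (κ (m + 1))) = κ (m + 1)
      rw [hb, map_smul, hK, ← add_smul, Fin.sum_univ_succ]
      simp [pow_succ, Finset.sum_neg_distrib]
  refine ⟨K x, map_C K _ (fun σ _ => ?_) hx.1, ?_⟩
  · rw [hK]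
    exact single_mem_C (fun _ => rfl) _
  · simpa [(mem_Z.1 hx).2] using h1

theorem acyc_of_starConvex {E : Type*} [NormedAddCommGroup E] [NormedSpace ℝ E] {A : Set E}
    {v : E} (hv : v ∈ A) (hA : StarConvex ℝ v A) : Acyc A := by
  have hs : ({v} : Set E) ⊆ A := singleton_subset_iff.2 hv
  refine (Ac.acyc_iff (ac_of_deform hs fun K _ hK => ?_) hs).2 (acyc_singleton v)
  refine ⟨fun q => q.1 • v + (1 - q.1) • q.2, by fun_prop, fun z _ => by simp,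
    fun t ht z hz => hA (hK hz) ht.1 (sub_nonneg.2 ht.2) (by ring), fun t _ z _ hz => ?_,
    fun z _ => by simp⟩
  rw [mem_singleton_iff] at hz ⊢
  simp [hz, ← add_smul]

theorem conc_compl_prod {F : Type*} [NormedAddCommGroup F] [NormedSpace ℝ F] {a : ℕ}
    (h : Conc ({0}ᶜ : Set F) a 1) : Conc ({0}ᶜ : Set (ℝ × F)) (a + 1) 1 := by
  have hU : ∀ ε : ℝ, IsOpen {q : ℝ × F | 0 < ε * q.1 ∨ q.2 ≠ 0} := fun ε =>
    (isOpen_lt (f := fun _ : ℝ × F => (0 : ℝ)) (g := fun q => ε * q.1) continuous_const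
      (by fun_prop)).union (isOpen_ne_fun (f := fun q : ℝ × F => q.2) (g := fun _ => 0)
        continuous_snd continuous_const)
  have hac : ∀ ε : ℝ, ε * ε = 1 → Acyc {q : ℝ × F | 0 < ε * q.1 ∨ q.2 ≠ 0} := by
    intro ε hε
    refine acyc_of_starConvex (v := (ε, 0)) (Or.inl (by simp [hε])) ?_
    rintro ⟨s, y⟩ hq a b ha hb hab
    by_cases hb0 : b = 0
    · left
      obtain rfl : a = 1 := by linarith
      simp [hb0, hε]
    · rcases hq with hq | hq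
      · left
        have : 0 < b * (ε * s) := mul_pos (lt_of_le_of_ne hb (Ne.symm hb0)) hq
        simp only [Prod.smul_mk, smul_eq_mul, Prod.mk_add_mk]
        nlinarith
      · right
        simpa [hb0] using hq
  have hsub : ∀ ε : ℝ, {q : ℝ × F | 0 < ε * q.1 ∨ q.2 ≠ 0} =
      {0}ᶜ ∩ {q : ℝ × F | 0 < ε * q.1 ∨ q.2 ≠ 0} := fun ε => by
    refine (inter_eq_right.2 ?_).symm
    rintro q hq rfl
    simp at hq
  have hE := exc_of_open (A := ({0}ᶜ : Set (ℝ × F))) (A₀ := {q : ℝ × F | q.2 ≠ 0}) (hU 1)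
    (hU (-1)) (by
      rintro ⟨s, y⟩ hq
      by_cases hy : y = 0
      · have hs : s ≠ 0 := by
          rintro rfl
          exact hq (by simp [hy])
        rcases hs.lt_or_gt with h | h
        · exact Or.inr (Or.inl (by simpa using h))
        · exact Or.inl (Or.inl (by simpa using h))
      · exact Or.inl (Or.inr hy)) (hsub 1) (hsub (-1)) (by
      ext ⟨s, y⟩
      simp only [mem_ofPred_eq, mem_inter_iff]
      constructor
      · exact fun h => ⟨Or.inr h, Or.inr h⟩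
      · rintro ⟨h1 | h1, h2 | h2⟩
        · linarith
        all_goals assumption)
  refine hE.conc_susp (hac 1 (by ring)) (hac (-1) (by ring)) ?_
  let g : C(F, ℝ × F) := ⟨fun y => (0, y), by fun_prop⟩
  have hg : Topology.IsEmbedding g := isEmbedding_prodMkRight 0
  have hs : g '' {0}ᶜ ⊆ {q : ℝ × F | q.2 ≠ 0} := by
    rintro _ ⟨y, hy, rfl⟩
    exact hy
  refine (Ac.conc_iff (ac_of_deform hs fun K _ hK => ?_) hs).2 ((conc_image_iff g hg).2 h)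
  refine ⟨fun q => ((1 - q.1) * q.2.1, q.2.2), by fun_prop, fun z _ => by simp,
    fun t _ z hz => (hK hz : z.2 ≠ 0), ?_, fun z hz => ⟨z.2, hK hz, by simp [g]⟩⟩
  rintro t _ _ _ ⟨y, hy, rfl⟩
  exact ⟨y, hy, by simp [g]⟩

theorem conc_homeo (e : X ≃ₜ Y) {A : Set X} {A' : Set Y} (h : ∀ z, e z ∈ A' ↔ z ∈ A) {a μ : ℕ}
    (hA : Conc A a μ) : Conc A' a μ := by
  have : A' = (e : C(X, Y)) '' A := by
    ext y
    obtain ⟨z, rfl⟩ := e.surjective y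
    rw [h]
    exact (e.injective.mem_set_image).symm
  rw [this]
  exact (conc_image_iff (e : C(X, Y)) e.isEmbedding).2 hA

theorem acyc_homeo (e : X ≃ₜ Y) {A : Set X} {A' : Set Y} (h : ∀ z, e z ∈ A' ↔ z ∈ A)
    (hA : Acyc A) : Acyc A' := by
  have : A' = (e : C(X, Y)) '' A := by
    ext y
    obtain ⟨z, rfl⟩ := e.surjective y
    rw [h]
    exact (e.injective.mem_set_image).symm
  rw [this]
  exact (acyc_image_iff (e : C(X, Y)) e.isEmbedding).2 hA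

theorem conc_compl_fin (k : ℕ) : Conc ({0}ᶜ : Set (Fin k → ℝ)) k 1 := by
  induction k with
  | zero =>
    have : ({0}ᶜ : Set (Fin 0 → ℝ)) = ∅ := by
      ext z
      simp [Subsingleton.elim z 0]
    rw [this]
    exact conc_empty
  | succ k ih =>
    let e : (ℝ × (Fin k → ℝ)) ≃L[ℝ] (Fin (k + 1) → ℝ) :=
      ContinuousLinearEquiv.ofFinrankEq (by simp [add_comm])
    exact conc_homeo e.toHomeomorph (fun z => by simp) (conc_compl_prod ih)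

/-- homology of a punctured vector space -/
theorem conc_compl_point {E : Type*} [NormedAddCommGroup E] [NormedSpace ℝ E]
    [FiniteDimensional ℝ E] (p : E) : Conc ({p}ᶜ : Set E) (Module.finrank ℝ E) 1 := by
  let e : (Fin (Module.finrank ℝ E) → ℝ) ≃L[ℝ] E := ContinuousLinearEquiv.ofFinrankEq (by simp)
  exact conc_homeo (e.toHomeomorph.trans (Homeomorph.addLeft p)) (fun z => by simp)
    (conc_compl_fin _)

end Pool.Agent.Shared.SingHom
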