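import Pool.Agent.Shared.SingHom.Basic

/-! Cone recursion, prism operator, homotopy invariance, embeddings, deformation lemma. -/

set_option autoImplicit false

open Set

noncomputable section

namespace Pool.Agent.Shared.SingHom

section Formal

variable {Y Y' V V' : Type*}

/-- map of formal chains induced by a map of vertices -/
def mapL (g : Y → V) : LC Y →ₗ[ℤ] LC V := mapG (fun _ v => g ∘ v)

theorem mapL_single (g : Y → V) (m : ℕ) (v : Fin m → Y) (c : ℤ) :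
    mapL g (Finsupp.single ⟨m, v⟩ c) = Finsupp.single ⟨m, g ∘ v⟩ c := mapG_single _ _ _ _

theorem bdL_mapL (g : Y → V) (x : LC Y) : bdL (mapL g x) = mapL g (bdL x) :=
  bdG_mapG (fun m (i : Fin (m + 1)) (v : Fin (m + 1) → Y) => v ∘ i.succAbove)
    (fun m (i : Fin (m + 1)) (v : Fin (m + 1) → V) => v ∘ i.succAbove)
    (fun _ v => g ∘ v) (fun _ _ _ => rfl) x

theorem mapL_cone (g : Y → V) (a : Y) (x : LC Y) : mapL g (cone a x) = cone (g a) (mapL g x) := by
  have : (mapL g).comp (cone a) = (cone (g a)).comp (mapL g) := by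
    apply lext
    rintro ⟨m, v⟩
    simp only [LinearMap.comp_apply, cone_single, mapL_single]
    congr 2
    ext j
    refine Fin.cases ?_ (fun j => ?_) j <;> simp
  exact LinearMap.congr_fun this x

theorem mapL_mapL (g : Y → V) (g' : V → V') (x : LC Y) :
    mapL g' (mapL g x) = mapL (g' ∘ g) x := by
  have : (mapL g').comp (mapL g) = mapL (g' ∘ g) := by
    apply lext
    rintro ⟨m, v⟩
    simp only [LinearMap.comp_apply, mapL_single]
    rfl
  exact LinearMap.congr_fun this x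

/-- cone recursion on generators -/
def crecG (φ : LC Y →ₗ[ℤ] LC Y') (b : ∀ m, (Fin (m + 1) → Y) → Y') :
    ∀ m, (Fin m → Y) → LC Y'
  | 0, _ => 0
  | m + 1, v => cone (b m v) (φ (Finsupp.single ⟨m + 1, v⟩ 1) -
      ∑ i : Fin (m + 1), ((-1 : ℤ) ^ (i : ℕ)) • crecG φ b m (v ∘ i.succAbove))

/-- cone recursion -/
def crec (φ : LC Y →ₗ[ℤ] LC Y') (b : ∀ m, (Fin (m + 1) → Y) → Y') : LC Y →ₗ[ℤ] LC Y' :=
  Finsupp.linearCombination ℤ (fun s => crecG φ b s.1 s.2)

theorem crec_single (φ : LC Y →ₗ[ℤ] LC Y') (b : ∀ m, (Fin (m + 1) → Y) → Y') (m : ℕ)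
    (v : Fin m → Y) : crec φ b (Finsupp.single ⟨m, v⟩ 1) = crecG φ b m v := by
  simp [crec]

theorem crec_zero (φ : LC Y →ₗ[ℤ] LC Y') (b : ∀ m, (Fin (m + 1) → Y) → Y')
    (v : Fin 0 → Y) : crec φ b (Finsupp.single ⟨0, v⟩ 1) = 0 := by
  rw [crec_single]; rfl

theorem crec_succ (φ : LC Y →ₗ[ℤ] LC Y') (b : ∀ m, (Fin (m + 1) → Y) → Y') (m : ℕ)
    (v : Fin (m + 1) → Y) : crec φ b (Finsupp.single ⟨m + 1, v⟩ 1) =
      cone (b m v) (φ (Finsupp.single ⟨m + 1, v⟩ 1) -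
        crec φ b (bdL (Finsupp.single ⟨m + 1, v⟩ 1))) := by
  rw [crec_single, bdL_succ, map_sum]
  simp only [map_smul, crec_single]
  rfl

/-- the defect of the homotopy identity -/
def cdef (φ : LC Y →ₗ[ℤ] LC Y') (b : ∀ m, (Fin (m + 1) → Y) → Y') : LC Y →ₗ[ℤ] LC Y' :=
  φ - bdL.comp (crec φ b) - (crec φ b).comp bdL

theorem cdef_apply (φ : LC Y →ₗ[ℤ] LC Y') (b : ∀ m, (Fin (m + 1) → Y) → Y') (x : LC Y) :
    cdef φ b x = φ x - bdL (crec φ b x) - crec φ b (bdL x) := rfl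

theorem cdef_zero (φ : LC Y →ₗ[ℤ] LC Y') (b : ∀ m, (Fin (m + 1) → Y) → Y') (v : Fin 0 → Y) :
    cdef φ b (Finsupp.single ⟨0, v⟩ 1) = φ (Finsupp.single ⟨0, v⟩ 1) := by
  rw [cdef_apply, crec_zero, bdL_zero]
  simp

theorem cdef_succ (φ : LC Y →ₗ[ℤ] LC Y') (b : ∀ m, (Fin (m + 1) → Y) → Y')
    (hφ : ∀ x, bdL (φ x) = φ (bdL x)) (m : ℕ) (v : Fin (m + 1) → Y) :
    cdef φ b (Finsupp.single ⟨m + 1, v⟩ 1) =
      cone (b m v) (cdef φ b (bdL (Finsupp.single ⟨m + 1, v⟩ 1))) := by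
  rw [cdef_apply, crec_succ, bdL_cone, cdef_apply, bdL_bdL, map_zero, map_sub, hφ]
  simp only [sub_zero]
  abel

theorem mapL_crec (φ : LC Y →ₗ[ℤ] LC Y') (b : ∀ m, (Fin (m + 1) → Y) → Y')
    (φ' : LC V →ₗ[ℤ] LC V') (b' : ∀ m, (Fin (m + 1) → V) → V') (g : Y → V) (g' : Y' → V')
    (hφ : ∀ x, mapL g' (φ x) = φ' (mapL g x)) (hb : ∀ m v, g' (b m v) = b' m (g ∘ v))
    (x : LC Y) : mapL g' (crec φ b x) = crec φ' b' (mapL g x) := by
  have key : ∀ (m : ℕ) (v : Fin m → Y), mapL g' (crecG φ b m v) = crecG φ' b' m (g ∘ v) := by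
    intro m
    induction m with
    | zero => intro v; simp [crecG]
    | succ m ih =>
      intro v
      simp only [crecG, mapL_cone, map_sub, map_sum, map_smul, ih, hφ, mapL_single, hb]
      rfl
  have : (mapL g').comp (crec φ b) = (crec φ' b').comp (mapL g) := by
    apply lext
    rintro ⟨m, v⟩
    simp only [LinearMap.comp_apply, crec_single, mapL_single, key]
  exact LinearMap.congr_fun this x

/-- formal chains of a given degree -/
def LD (Y : Type*) (m : ℕ) : Submodule ℤ (LC Y) := Finsupp.supported ℤ ℤ {s | s.1 = m}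

theorem single_mem_LD {m : ℕ} (v : Fin m → Y) (c : ℤ) :
    Finsupp.single (⟨m, v⟩ : Σ m : ℕ, Fin m → Y) c ∈ LD Y m :=
  Finsupp.single_mem_supported _ _ rfl

theorem map_LD {M : Type*} [AddCommGroup M] (φ : LC Y →ₗ[ℤ] M) {m : ℕ} (N : Submodule ℤ M)
    (h : ∀ v : Fin m → Y, φ (Finsupp.single ⟨m, v⟩ 1) ∈ N) {x : LC Y} (hx : x ∈ LD Y m) :
    φ x ∈ N := by
  refine map_supported φ _ N ?_ hx
  rintro ⟨k, v⟩ rfl
  exact h v

theorem cone_mem_LD (a : Y) {m : ℕ} {x : LC Y} (hx : x ∈ LD Y m) : cone a x ∈ LD Y (m + 1) :=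
  map_LD (cone a) _ (fun v => by rw [cone_single]; exact single_mem_LD _ _) hx

theorem mapL_mem_LD (g : Y → V) {m : ℕ} {x : LC Y} (hx : x ∈ LD Y m) : mapL g x ∈ LD V m :=
  map_LD (mapL g) _ (fun v => by rw [mapL_single]; exact single_mem_LD _ _) hx

theorem crecG_mem_LD (φ : LC Y →ₗ[ℤ] LC Y') (b : ∀ m, (Fin (m + 1) → Y) → Y')
    (hφ : ∀ m (v : Fin m → Y), φ (Finsupp.single ⟨m, v⟩ 1) ∈ LD Y' m) :
    ∀ (m : ℕ) (v : Fin m → Y), crecG φ b m v ∈ LD Y' (m + 1)
  | 0, _ => Submodule.zero_mem _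
  | m + 1, _ => cone_mem_LD _ (Submodule.sub_mem _ (hφ _ _) (Submodule.sum_mem _ fun _ _ =>
      Submodule.smul_mem _ _ (crecG_mem_LD φ b hφ m _)))

/-- the two ends of the prism -/
def ends (Y : Type*) : LC Y →ₗ[ℤ] LC (ℝ × Y) :=
  mapL (fun y => ((1 : ℝ), y)) - mapL (fun y => ((0 : ℝ), y))

/-- formal prism operator -/
def prL (Y : Type*) : LC Y →ₗ[ℤ] LC (ℝ × Y) := crec (ends Y) (fun _ v => (0, v 0))

theorem prL_bd (x : LC Y) : bdL (prL Y x) + prL Y (bdL x) = ends Y x := by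
  have hφ : ∀ x, bdL (ends Y x) = ends Y (bdL x) := fun x => by
    simp only [ends, LinearMap.sub_apply, map_sub, bdL_mapL]
  have key : ∀ (m : ℕ) (v : Fin m → Y),
      cdef (ends Y) (fun _ v => (0, v 0)) (Finsupp.single ⟨m, v⟩ 1) = 0 := by
    intro m
    induction m with
    | zero =>
      intro v
      rw [cdef_zero]
      simp only [ends, LinearMap.sub_apply, mapL_single, sub_eq_zero]
      congr 2
      exact Subsingleton.elim _ _
    | succ m ih =>
      intro v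
      rw [cdef_succ _ _ hφ, bdL_succ, map_sum]
      simp only [map_smul, ih, smul_zero, Finset.sum_const_zero, map_zero]
  have : cdef (ends Y) (fun _ v => ((0 : ℝ), v 0)) = 0 := by
    apply lext
    rintro ⟨m, v⟩
    exact key m v
  have h2 := LinearMap.congr_fun this x
  rw [cdef_apply, LinearMap.zero_apply, sub_sub, sub_eq_zero] at h2
  exact h2.symm

theorem mapL_prL (g : Y → V) (x : LC Y) :
    mapL (Prod.map id g) (prL Y x) = prL V (mapL g x) :=
  mapL_crec _ _ _ _ g _ (fun x => by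
    simp only [ends, LinearMap.sub_apply, map_sub, mapL_mapL]
    rfl) (fun _ _ => rfl) x

/-- tuples whose times lie in the unit interval -/
def LT (Y : Type*) (m : ℕ) : Submodule ℤ (LC (ℝ × Y)) :=
  Finsupp.supported ℤ ℤ {s | s.1 = m ∧ ∀ j, (s.2 j).1 ∈ Icc (0 : ℝ) 1}

theorem prL_mem : ∀ (m : ℕ) (v : Fin m → Y), prL Y (Finsupp.single ⟨m, v⟩ 1) ∈ LT Y (m + 1) := by
  intro m
  induction m with
  | zero => intro v; rw [prL, crec_zero]; exact Submodule.zero_mem _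
  | succ m ih =>
    intro v
    rw [prL, crec_succ]
    have h1 : ∀ x ∈ LT Y (m + 1), cone ((0 : ℝ), v 0) x ∈ LT Y (m + 1 + 1) := by
      intro x hx
      refine map_supported _ _ _ ?_ hx
      rintro ⟨k, u⟩ ⟨rfl, hu⟩
      rw [cone_single]
      refine Finsupp.single_mem_supported _ _ ⟨rfl, fun j => ?_⟩
      refine Fin.cases ?_ (fun j => ?_) j
      · simp
      · simpa using hu j
    refine h1 _ (Submodule.sub_mem _ ?_ ?_)
    · simp only [ends, LinearMap.sub_apply, mapL_single]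
      exact Submodule.sub_mem _ (Finsupp.single_mem_supported _ _ ⟨rfl, fun j => by simp⟩)
        (Finsupp.single_mem_supported _ _ ⟨rfl, fun j => by simp⟩)
    · rw [bdL_succ, map_sum]
      exact Submodule.sum_mem _ fun i _ => by
        rw [map_smul]
        exact Submodule.smul_mem _ _ (ih _)

end Formal

variable {X Y : Type*} [TopologicalSpace X] [TopologicalSpace Y]

/-- time slice of a homotopy -/
def slice (h : C(ℝ × X, Y)) (t : ℝ) : C(X, Y) := h.comp ⟨fun z => (t, z), by fun_prop⟩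

theorem continuous_coord {k : ℕ} (j : Fin k) : Continuous fun t : Dl k => t j :=
  (continuous_apply j).comp continuous_subtype_val

theorem sum_map_mul {k l : ℕ} (f : Fin k → Fin l) (t : Dl k) {E : Type*} [AddCommGroup E]
    [Module ℝ E] (c : Fin l → E) :
    ∑ j, (stdSimplex.map f t) j • c j = ∑ i, t i • c (f i) := by
  simp only [stdSimplex.map_coe, FunOnFinite.linearMap_apply_apply, Finset.sum_smul]
  rw [← Finset.sum_fiberwise Finset.univ f]
  refine Finset.sum_congr rfl fun j _ => Finset.sum_congr rfl fun i hi => ?_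
  rw [(Finset.mem_filter.1 hi).2]

/-- simplex of the prism over the standard simplex -/
def prS {k m : ℕ} (u : Fin k → ℝ × Fin m) : C(Dl k, ℝ × Dl m) :=
  ⟨fun t => (∑ j, t j • (u j).1, smap (fun j => (u j).2) t), by
    refine Continuous.prodMk ?_ (smap _).continuous
    exact continuous_finsetSum _ fun j _ => (continuous_coord j).smul continuous_const⟩

/-- evaluation of formal prism chains -/
def evP (h : C(ℝ × X, Y)) {m : ℕ} (σ : C(Dl m, X)) : LC (ℝ × Fin m) →ₗ[ℤ] Ch Y :=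
  mapG (fun _ u => (h.comp ((ContinuousMap.id ℝ).prodMap σ)).comp (prS u))

/-- evaluation of formal chains of vertices -/
def ev0 {m : ℕ} (σ : C(Dl m, X)) : LC (Fin m) →ₗ[ℤ] Ch X := mapG (fun _ v => σ.comp (smap v))

theorem bd_evP (h : C(ℝ × X, Y)) {m : ℕ} (σ : C(Dl m, X)) (x : LC (ℝ × Fin m)) :
    bd (evP h σ x) = evP h σ (bdL x) :=
  bdG_mapG (fun k (i : Fin (k + 1)) (v : Fin (k + 1) → ℝ × Fin m) => v ∘ i.succAbove)
    (fun k i (τ : C(Dl (k + 1), Y)) => τ.comp (face k i))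
    (fun _ u => (h.comp ((ContinuousMap.id ℝ).prodMap σ)).comp (prS u)) (fun k i u => by
      ext t
      simp only [face, smap, prS, ContinuousMap.comp_apply, ContinuousMap.coe_mk,
        stdSimplex.map_comp_apply, sum_map_mul]
      rfl) x

theorem bd_ev0 {m : ℕ} (σ : C(Dl m, X)) (x : LC (Fin m)) : bd (ev0 σ x) = ev0 σ (bdL x) :=
  bdG_mapG (fun k (i : Fin (k + 1)) (v : Fin (k + 1) → Fin m) => v ∘ i.succAbove)
    (fun k i (τ : C(Dl (k + 1), X)) => τ.comp (face k i))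
    (fun _ v => σ.comp (smap v)) (fun k i u => by
      ext t
      simp only [face, smap, ContinuousMap.comp_apply, ContinuousMap.coe_mk,
        stdSimplex.map_comp_apply]) x

theorem ev0_id {m : ℕ} (σ : C(Dl m, X)) :
    ev0 σ (Finsupp.single ⟨m, id⟩ 1) = Finsupp.single ⟨m, σ⟩ 1 := by
  rw [ev0, mapG_single]
  congr 2
  ext t
  simp [smap]

theorem evP_mapL (h : C(ℝ × X, Y)) {k m : ℕ} (σ : C(Dl m, X)) (v : Fin k → Fin m)
    (x : LC (ℝ × Fin k)) : evP h (σ.comp (smap v)) x = evP h σ (mapL (Prod.map id v) x) := by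
  have : evP h (σ.comp (smap v)) = (evP h σ).comp (mapL (Prod.map id v)) := by
    apply lext
    rintro ⟨l, u⟩
    simp only [LinearMap.comp_apply, mapL_single, evP, mapG_single]
    congr 2
    ext t
    simp only [smap, prS, ContinuousMap.comp_apply, ContinuousMap.coe_mk,
      ContinuousMap.prodMap_apply, Prod.map_apply, stdSimplex.map_comp_apply]
    rfl
  exact LinearMap.congr_fun this x

theorem evP_end (h : C(ℝ × X, Y)) {m : ℕ} (σ : C(Dl m, X)) (s : ℝ) :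
    evP h σ (mapL (fun y => (s, y)) (Finsupp.single ⟨m, id⟩ 1)) =
      push (slice h s) (Finsupp.single ⟨m, σ⟩ 1) := by
  rw [mapL_single, evP, mapG_single, push_single]
  congr 2
  ext t
  have e : stdSimplex.map (fun j => j) t = t := stdSimplex.map_id_apply t
  simp [prS, smap, slice, ← Finset.sum_mul, e]

theorem exists_prism (h : C(ℝ × X, Y)) : ∃ P : Ch X →ₗ[ℤ] Ch Y,
    (∀ x, bd (P x) + P (bd x) = push (slice h 1) x - push (slice h 0) x) ∧
    ∀ (A : Set X) (A' : Set Y), (∀ t ∈ Icc (0 : ℝ) 1, ∀ z ∈ A, h (t, z) ∈ A') →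
      ∀ m, ∀ x ∈ C A m, P x ∈ C A' (m + 1) := by
  let P : Ch X →ₗ[ℤ] Ch Y := Finsupp.linearCombination ℤ
    (fun s : Sx X => evP h s.2 (prL _ (Finsupp.single ⟨s.1, id⟩ 1)))
  have hP : ∀ m (σ : C(Dl m, X)),
      P (Finsupp.single ⟨m, σ⟩ 1) = evP h σ (prL _ (Finsupp.single ⟨m, id⟩ 1)) := by
    intro m σ
    simp [P]
  have hev : ∀ m (σ : C(Dl m, X)) (x : LC (Fin m)), P (ev0 σ x) = evP h σ (prL _ x) := by
    intro m σ x
    have : P.comp (ev0 σ) = (evP h σ).comp (prL _) := by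
      apply lext
      rintro ⟨k, v⟩
      simp only [LinearMap.comp_apply]
      rw [ev0, mapG_single, hP, evP_mapL, mapL_prL, mapL_single]
      rfl
    exact LinearMap.congr_fun this x
  refine ⟨P, fun x => ?_, fun A A' hA m x hx => ?_⟩
  · have : bd.comp P + P.comp bd = push (slice h 1) - push (slice h 0) := by
      apply lext
      rintro ⟨m, σ⟩
      simp only [LinearMap.add_apply, LinearMap.comp_apply, LinearMap.sub_apply]
      rw [← evP_end, ← evP_end, ← ev0_id, bd_ev0, hev, hev, bd_evP, ← map_add, prL_bd, ends,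
        LinearMap.sub_apply, map_sub]
    exact LinearMap.congr_fun this x
  · refine map_C P _ (fun σ hσ => ?_) hx
    rw [hP]
    refine map_supported _ _ _ ?_ (prL_mem m id)
    rintro ⟨k, u⟩ ⟨rfl, hu⟩
    rw [evP, mapG_single]
    refine single_mem_C (fun t => ?_) _
    refine hA (∑ j, t j • (u j).1) ⟨?_, ?_⟩ _ (hσ _)
    · exact Finset.sum_nonneg fun j _ => smul_nonneg (stdSimplex.zero_le t j) (hu j).1
    · calc ∑ j, t j • (u j).1 ≤ ∑ j, t j := Finset.sum_le_sum fun j _ =>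
            mul_le_of_le_one_right (stdSimplex.zero_le t j) (hu j).2
        _ = 1 := stdSimplex.sum_eq_one t

/-! ### Embeddings -/

theorem push_injective (g : C(X, Y)) (hg : Function.Injective g) :
    Function.Injective (push g) := by
  refine Finsupp.mapDomain_injective ?_
  rintro ⟨m, σ⟩ ⟨m', σ'⟩ h
  obtain ⟨rfl, h2⟩ := Sigma.mk.inj_iff.1 h
  have h3 := eq_of_heq h2
  congr
  ext t
  exact hg (DFunLike.congr_fun h3 t)

theorem exists_push_eq (g : C(X, Y)) (hg : Topology.IsEmbedding g) {A : Set X} {m : ℕ} {y : Ch Y}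
    (hy : y ∈ C (g '' A) m) : ∃ x ∈ C A m, push g x = y := by
  refine map_C LinearMap.id ((C A m).map (push g)) (fun σ hσ => ?_) hy
  choose τ hτ using hσ
  have hc : Continuous τ := by
    rw [hg.continuous_iff]
    have : g ∘ τ = σ := funext fun t => (hτ t).2
    rw [this]
    exact σ.continuous
  refine ⟨Finsupp.single ⟨m, ⟨τ, hc⟩⟩ 1, single_mem_C (fun t => (hτ t).1) _, ?_⟩
  rw [push_single]
  simp only [LinearMap.id_apply]
  congr 2
  ext t
  exact (hτ t).2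

theorem mem_C_of_push (g : C(X, Y)) (hg : Topology.IsEmbedding g) {A : Set X} {m : ℕ} {x : Ch X}
    (hx : push g x ∈ C (g '' A) m) : x ∈ C A m := by
  obtain ⟨x', hx', e⟩ := exists_push_eq g hg hx
  rwa [← push_injective g hg.injective e]

/-- the inclusion of a subset -/
def incl (K : Set X) : C(K, X) := ⟨Subtype.val, continuous_subtype_val⟩

/-- prism for a homotopy that is only continuous on a subset -/
theorem exists_prismOn {K : Set X} (h : ℝ × X → Y) (hc : ContinuousOn h (Icc (0 : ℝ) 1 ×ˢ K)) :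
    ∃ (P : Ch K →ₗ[ℤ] Ch Y) (g₀ g₁ : C(K, Y)), (∀ z, g₀ z = h (0, z)) ∧ (∀ z, g₁ z = h (1, z)) ∧
      (∀ x, bd (P x) + P (bd x) = push g₁ x - push g₀ x) ∧
      ∀ (A : Set K) (A' : Set Y), (∀ t ∈ Icc (0 : ℝ) 1, ∀ z ∈ A, h (t, z) ∈ A') →
        ∀ m, ∀ x ∈ C A m, P x ∈ C A' (m + 1) := by
  let h' : C(ℝ × K, Y) := ⟨fun q => h (projIcc (0 : ℝ) 1 zero_le_one q.1, q.2), by
    refine hc.comp_continuous (by fun_prop) fun q => ⟨(projIcc (0 : ℝ) 1 zero_le_one q.1).2, q.2.2⟩⟩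
  obtain ⟨P, h1, h2⟩ := exists_prism h'
  refine ⟨P, slice h' 0, slice h' 1, fun z => ?_, fun z => ?_, h1, fun A A' hA => h2 A A' ?_⟩
  · simp [slice, h']
  · simp [slice, h']
  · intro t ht z hz
    exact hA _ (projIcc (0 : ℝ) 1 zero_le_one t).2 z hz

theorem image_incl (K A : Set X) : incl K '' (Subtype.val ⁻¹' A) = K ∩ A :=
  Subtype.image_preimage_coe K A

theorem exists_lift {K : Set X} {m : ℕ} {x : Ch X} (hx : x ∈ C K m) :
    ∃ x' ∈ C (univ : Set K) m, push (incl K) x' = x := by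
  refine exists_push_eq (incl K) Topology.IsEmbedding.subtypeVal ?_
  have : incl K '' univ = K := by
    ext z
    simp [incl]
  rwa [this]

/-- homotopic maps give homologous cycles -/
theorem push_sub_mem_B {g₀ g₁ : C(X, Y)} {A : Set X} {A' : Set Y} (h : ℝ × X → Y)
    (hc : ContinuousOn h (Icc (0 : ℝ) 1 ×ˢ A)) (hA : ∀ t ∈ Icc (0 : ℝ) 1, ∀ z ∈ A, h (t, z) ∈ A')
    (h₀ : ∀ z ∈ A, h (0, z) = g₀ z) (h₁ : ∀ z ∈ A, h (1, z) = g₁ z) {m : ℕ} {x : Ch X}
    (hx : x ∈ Z A m) : push g₁ x - push g₀ x ∈ B A' m := by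
  obtain ⟨P, k₀, k₁, e₀, e₁, hP, hm⟩ := exists_prismOn h hc
  obtain ⟨x', hx', rfl⟩ := exists_lift hx.1
  have hb : bd x' = 0 := by
    apply push_injective (incl A) Subtype.val_injective
    rw [← bd_push, (mem_Z.1 hx).2, map_zero]
  refine ⟨P x', hm univ A' (fun t ht z _ => hA t ht z z.2) m x' hx', ?_⟩
  have := hP x'
  rw [hb, map_zero, add_zero] at this
  rw [this, push_push, push_push]
  congr 2
  · congr 1
    ext z
    exact (e₁ z).trans (h₁ z z.2)
  · congr 1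
    ext z
    exact (e₀ z).trans (h₀ z z.2)

theorem Hmap_homotopic {g₀ g₁ : C(X, Y)} {A : Set X} {A' : Set Y} (h : ℝ × X → Y)
    (hc : ContinuousOn h (Icc (0 : ℝ) 1 ×ˢ A)) (hA : ∀ t ∈ Icc (0 : ℝ) 1, ∀ z ∈ A, h (t, z) ∈ A')
    (h₀ : ∀ z ∈ A, h (0, z) = g₀ z) (h₁ : ∀ z ∈ A, h (1, z) = g₁ z)
    (m₀ : MapsTo g₀ A A') (m₁ : MapsTo g₁ A A') (m : ℕ) : Hmap g₀ m₀ m = Hmap g₁ m₁ m := by
  ext c
  obtain ⟨x, hx, rfl⟩ := Hq.mk_surj c
  rw [Hmap_cls, Hmap_cls, eq_comm, Hq.mk_eq_mk]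
  exact push_sub_mem_B h hc hA h₀ h₁ hx

/-- deformation lemma: every compact part of `A'` can be pushed into `A` -/
theorem ac_of_deform {A A' : Set X} (hA : A ⊆ A')
    (hd : ∀ K, IsCompact K → K ⊆ A' → ∃ h : ℝ × X → X, ContinuousOn h (Icc (0 : ℝ) 1 ×ˢ K) ∧
      (∀ z ∈ K, h (0, z) = z) ∧ (∀ t ∈ Icc (0 : ℝ) 1, ∀ z ∈ K, h (t, z) ∈ A') ∧
      (∀ t ∈ Icc (0 : ℝ) 1, ∀ z ∈ K, z ∈ A → h (t, z) ∈ A) ∧ ∀ z ∈ K, h (1, z) ∈ A) :
    Ac A' A := by
  have _ := hA
  intro m x hx hb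
  cases m with
  | zero => exact ⟨0, Submodule.zero_mem _, by simpa [C_zero A A'] using hx⟩
  | succ m =>
    obtain ⟨K, hK, hKA, hxK⟩ := exists_compact hx
    obtain ⟨h, hc, h0, h1, h2, h3⟩ := hd K hK hKA
    obtain ⟨P, k₀, k₁, e₀, e₁, hP, hm⟩ := exists_prismOn h hc
    obtain ⟨x', hx', rfl⟩ := exists_lift hxK
    have hb' : bd x' ∈ C (Subtype.val ⁻¹' A : Set K) m := by
      apply mem_C_of_push (incl K) Topology.IsEmbedding.subtypeVal
      rw [image_incl, ← bd_push]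
      exact mem_C_inter (bd_mem hxK) hb
    have hk : k₀ = incl K := by
      ext z
      exact (e₀ z).trans (h0 z z.2)
    refine ⟨-P x', Submodule.neg_mem _ (hm univ A' (fun t ht z _ => h1 t ht z z.2) _ x' hx'), ?_⟩
    have e : push (incl K) x' - bd (-P x') = push k₁ x' - P (bd x') := by
      rw [map_neg, ← hk, sub_neg_eq_add, eq_sub_of_add_eq (hP x')]
      abel
    rw [e]
    refine Submodule.sub_mem _ (push_mem k₁ (fun z _ => ?_) hx')
      (hm _ A (fun t ht z hz => h2 t ht z z.2 hz) _ _ hb')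
    rw [e₁]
    exact h3 z z.2

end Pool.Agent.Shared.SingHom
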