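import Pool.Agent.Shared.SingHom.Prism

/-! Barycentric subdivision and the small simplices theorem. -/

set_option autoImplicit false

open Set

noncomputable section

namespace Pool.Agent.Shared.SingHom

/-- affine simplex in a standard simplex -/
def aff {k m : ℕ} (v : Fin k → Dl m) : C(Dl k, Dl m) :=
  ⟨fun t => ⟨∑ j, t j • (v j).1, (convex_stdSimplex ℝ (Fin m)).sum_mem
      (fun j _ => stdSimplex.zero_le t j) (stdSimplex.sum_eq_one t) (fun j _ => (v j).2)⟩,
    Continuous.subtype_mk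
      (continuous_finsetSum _ fun j _ => (continuous_coord j).smul continuous_const) _⟩

theorem aff_val {k m : ℕ} (v : Fin k → Dl m) (t : Dl k) : (aff v t).1 = ∑ j, t j • (v j).1 := rfl

theorem aff_map {k l m : ℕ} (v : Fin l → Dl m) (f : Fin k → Fin l) (t : Dl k) :
    aff v (stdSimplex.map f t) = aff (v ∘ f) t := by
  apply Subtype.ext
  rw [aff_val, aff_val, sum_map_mul]
  rfl

/-- the vertices of the standard simplex -/
def vtx (m : ℕ) : Fin m → Dl m := fun j => stdSimplex.vertex j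

theorem aff_vtx {m : ℕ} (t : Dl m) : aff (vtx m) t = t := by
  apply Subtype.ext
  rw [aff_val]
  ext i
  simp only [vtx, Finset.sum_apply, Pi.smul_apply, Pi.single_apply, smul_eq_mul, mul_ite, mul_one,
    mul_zero, Finset.sum_ite_eq, Finset.mem_univ, if_true]
  rfl

theorem aff_vtx' {k m : ℕ} (v : Fin k → Dl m) : aff v ∘ vtx k = v := by
  funext j
  apply Subtype.ext
  rw [Function.comp_apply, aff_val]
  simp [vtx, Pi.single_apply]

theorem aff_aff {k l m : ℕ} (v : Fin l → Dl m) (v' : Fin k → Dl l) (t : Dl k) :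
    aff v (aff v' t) = aff (aff v ∘ v') t := by
  apply Subtype.ext
  rw [aff_val, aff_val]
  have e : ∀ j, (aff v' t) j = ∑ i, t i * (v' i) j := fun j => by
    change (aff v' t).1 j = _
    rw [aff_val, Finset.sum_apply]
    rfl
  simp only [e, Function.comp_apply, aff_val, Finset.sum_smul, Finset.smul_sum, smul_smul]
  exact Finset.sum_comm

/-- barycenter of a tuple -/
def bary (m : ℕ) (k : ℕ) (v : Fin (k + 1) → Dl m) : Dl m := aff v stdSimplex.barycenter

/-- formal subdivision homotopy -/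
def TL (m : ℕ) : LC (Dl m) →ₗ[ℤ] LC (Dl m) := crec LinearMap.id (bary m)

/-- formal subdivision -/
def SL (m : ℕ) : LC (Dl m) →ₗ[ℤ] LC (Dl m) := cdef LinearMap.id (bary m)

theorem mapL_TL {l m : ℕ} (v : Fin l → Dl m) (x : LC (Dl l)) :
    mapL (aff v) (TL l x) = TL m (mapL (aff v) x) :=
  mapL_crec LinearMap.id (bary l) LinearMap.id (bary m) (aff v) (aff v) (fun _ => rfl)
    (fun _ u => aff_aff v u _) x

/-- sets closed under affine combinations -/
def Conv {m : ℕ} (A : Set (Dl m)) : Prop :=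
  ∀ k (v : Fin k → Dl m), (∀ j, v j ∈ A) → ∀ t, aff v t ∈ A

theorem conv_closedBall {m : ℕ} (y : Dl m) (ρ : ℝ) : Conv (Metric.closedBall y ρ) := by
  intro k v hv t
  exact (convex_closedBall y.1 ρ).sum_mem (fun j _ => stdSimplex.zero_le t j)
    (stdSimplex.sum_eq_one t) (fun j _ => hv j)

theorem dist_bary {m k : ℕ} (v : Fin (k + 1) → Dl m) {r : ℝ} (hv : ∀ i j, dist (v i) (v j) ≤ r)
    (j : Fin (k + 1)) : dist (v j) (bary m k v) ≤ (k / (k + 1) : ℝ) * r := by
  have hk : (0 : ℝ) < k + 1 := by positivity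
  have e : (v j).1 - (bary m k v).1 = ∑ i, ((k : ℝ) + 1)⁻¹ • ((v j).1 - (v i).1) := by
    rw [bary, aff_val]
    have : ∀ i, (stdSimplex.barycenter : Dl (k + 1)) i = ((k : ℝ) + 1)⁻¹ := fun i => by
      change (Fintype.card (Fin (k + 1)) : ℝ)⁻¹ = _
      simp
    simp only [this, smul_sub, Finset.sum_sub_distrib, Finset.sum_const, Finset.card_univ,
      Fintype.card_fin]
    congr 1
    rw [← Nat.cast_smul_eq_nsmul ℝ, smul_smul]
    push_cast
    rw [mul_inv_cancel₀ hk.ne', one_smul]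
  rw [Subtype.dist_eq, dist_eq_norm, e, Fin.sum_univ_succAbove _ j, sub_self, smul_zero, zero_add]
  calc _ ≤ ∑ i : Fin k, ‖((k : ℝ) + 1)⁻¹ • ((v j).1 - (v (j.succAbove i)).1)‖ := norm_sum_le _ _
    _ ≤ ∑ _i : Fin k, ((k : ℝ) + 1)⁻¹ * r := Finset.sum_le_sum fun i _ => by
        rw [norm_smul, Real.norm_of_nonneg (inv_nonneg.2 hk.le), ← dist_eq_norm]
        exact mul_le_mul_of_nonneg_left (hv _ _) (inv_nonneg.2 hk.le)
    _ = (k / (k + 1) : ℝ) * r := by
        simp only [Finset.sum_const, Finset.card_univ, Fintype.card_fin, nsmul_eq_mul]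
        ring

/-- small tuples in `A` -/
def LS {m : ℕ} (A : Set (Dl m)) (r : ℝ) (k : ℕ) : Submodule ℤ (LC (Dl m)) :=
  Finsupp.supported ℤ ℤ {s | s.1 = k ∧ (∀ j, s.2 j ∈ A) ∧ ∀ i j, dist (s.2 i) (s.2 j) ≤ r}

theorem SL_mem {m M : ℕ} {r : ℝ} (hr : 0 ≤ r) : ∀ k, k ≤ M + 1 → ∀ A : Set (Dl m), Conv A →
    ∀ x ∈ LS A r k, SL m x ∈ LS A ((M / (M + 1) : ℝ) * r) k := by
  intro k
  induction k with
  | zero =>
    intro _ A _ x hx
    refine map_supported _ _ _ ?_ hx
    rintro ⟨k, v⟩ ⟨rfl, -⟩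
    rw [SL, cdef_zero]
    exact Finsupp.single_mem_supported _ _ ⟨rfl, fun j => j.elim0, fun j => j.elim0⟩
  | succ k ih =>
    intro hk A hA x hx
    refine map_supported _ _ _ ?_ hx
    rintro ⟨_, v⟩ ⟨rfl, hv, hd⟩
    rw [SL, cdef_succ LinearMap.id _ (fun _ => rfl)]
    have hb : ∀ j, dist (v j) (bary m k v) ≤ (M / (M + 1) : ℝ) * r := fun j => by
      refine (dist_bary v hd j).trans (mul_le_mul_of_nonneg_right ?_ hr)
      have : (k : ℝ) ≤ M := by exact_mod_cast Nat.le_of_succ_le_succ hk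
      rw [div_le_div_iff₀ (by positivity) (by positivity)]
      nlinarith
    have h1 : bdL (Finsupp.single ⟨k + 1, v⟩ 1) ∈
        LS (A ∩ Metric.closedBall (bary m k v) ((M / (M + 1) : ℝ) * r)) r k := by
      rw [bdL_succ]
      exact Submodule.sum_mem _ fun i _ => Submodule.smul_mem _ _
        (Finsupp.single_mem_supported _ _ ⟨rfl, fun j => ⟨hv _, hb _⟩, fun i j => hd _ _⟩)
    have h2 := ih (by omega) (A ∩ Metric.closedBall (bary m k v) ((M / (M + 1) : ℝ) * r))
      (fun l u hu t => ⟨hA l u (fun j => (hu j).1) t,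
      conv_closedBall _ _ l u (fun j => (hu j).2) t⟩) _ h1
    refine map_supported _ _ _ ?_ h2
    rintro ⟨_, u⟩ ⟨rfl, hu, hd'⟩
    rw [cone_single]
    refine Finsupp.single_mem_supported _ _ ⟨rfl, fun j => ?_, fun i j => ?_⟩
    · refine Fin.cases ?_ (fun j => ?_) j
      · exact hA _ v hv _
      · exact (hu j).1
    · refine Fin.cases ?_ (fun i => ?_) i <;> refine Fin.cases ?_ (fun j => ?_) j
      · simp only [dist_self]; positivity
      · rw [dist_comm]; exact (hu j).2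
      · exact (hu i).2
      · exact hd' i j

theorem SL_pow_mem (m n : ℕ) :
    (SL (m + 1) ^ n) (Finsupp.single ⟨m + 1, vtx (m + 1)⟩ 1) ∈
      LS univ ((m / (m + 1) : ℝ) ^ n) (m + 1) := by
  induction n with
  | zero =>
    refine Finsupp.single_mem_supported _ _ ⟨rfl, fun _ => trivial, fun i j => ?_⟩
    rw [pow_zero, Subtype.dist_eq]
    exact (Metric.dist_le_diam_of_mem (bounded_stdSimplex _) (Subtype.prop _)
      (Subtype.prop _)).trans diam_stdSimplex_le
  | succ n ih =>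
    rw [pow_succ', pow_succ', Module.End.mul_apply]
    exact SL_mem (by positivity) _ le_rfl univ (fun _ _ _ _ => trivial) _ ih

variable {X : Type*} [TopologicalSpace X]

/-- evaluation of affine chains -/
def ev {m : ℕ} (σ : C(Dl m, X)) : LC (Dl m) →ₗ[ℤ] Ch X := mapG (fun _ v => σ.comp (aff v))

theorem bd_ev {m : ℕ} (σ : C(Dl m, X)) (x : LC (Dl m)) : bd (ev σ x) = ev σ (bdL x) :=
  bdG_mapG (fun k (i : Fin (k + 1)) (v : Fin (k + 1) → Dl m) => v ∘ i.succAbove)
    (fun k i (τ : C(Dl (k + 1), X)) => τ.comp (face k i))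
    (fun _ v => σ.comp (aff v)) (fun k i u => by
      ext t
      simp only [face, smap, ContinuousMap.comp_apply, ContinuousMap.coe_mk, aff_map]) x

theorem ev_vtx {m : ℕ} (σ : C(Dl m, X)) :
    ev σ (Finsupp.single ⟨m, vtx m⟩ 1) = Finsupp.single ⟨m, σ⟩ 1 := by
  rw [ev, mapG_single]
  congr 2
  ext t
  simp [aff_vtx]

theorem ev_mapL {k m : ℕ} (σ : C(Dl m, X)) (v : Fin k → Dl m) (x : LC (Dl k)) :
    ev (σ.comp (aff v)) x = ev σ (mapL (aff v) x) := by
  have : ev (σ.comp (aff v)) = (ev σ).comp (mapL (aff v)) := by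
    apply lext
    rintro ⟨l, u⟩
    simp only [LinearMap.comp_apply, mapL_single, ev, mapG_single]
    congr 2
    ext t
    simp only [ContinuousMap.comp_apply, aff_aff]
  exact LinearMap.congr_fun this x

theorem ev_mem {m k : ℕ} (σ : C(Dl m, X)) {A : Set X} (hσ : ∀ t, σ t ∈ A) {x : LC (Dl m)}
    (hx : x ∈ LD (Dl m) k) : ev σ x ∈ C A k :=
  map_LD _ _ (fun v => by
    rw [ev, mapG_single]
    exact single_mem_C (σ := σ.comp (aff v)) (fun t => hσ _) _) hx

/-- subdivision homotopy on singular chains -/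
def TC : Ch X →ₗ[ℤ] Ch X :=
  Finsupp.linearCombination ℤ (fun s : Sx X => ev s.2 (TL _ (Finsupp.single ⟨s.1, vtx s.1⟩ 1)))

theorem TC_single {m : ℕ} (σ : C(Dl m, X)) :
    TC (Finsupp.single ⟨m, σ⟩ 1) = ev σ (TL _ (Finsupp.single ⟨m, vtx m⟩ 1)) := by
  simp [TC]

theorem TC_ev {m : ℕ} (σ : C(Dl m, X)) (x : LC (Dl m)) : TC (ev σ x) = ev σ (TL m x) := by
  have : TC.comp (ev σ) = (ev σ).comp (TL m) := by
    apply lext
    rintro ⟨k, v⟩
    simp only [LinearMap.comp_apply]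
    rw [ev, mapG_single, TC_single, ev_mapL, mapL_TL, mapL_single, aff_vtx']
    rfl
  exact LinearMap.congr_fun this x

theorem TC_mem {A : Set X} {m : ℕ} {x : Ch X} (hx : x ∈ C A m) : TC x ∈ C A (m + 1) := by
  refine map_C TC _ (fun σ hσ => ?_) hx
  rw [TC_single, TL, crec_single]
  exact ev_mem σ hσ (crecG_mem_LD _ _ (fun _ v => single_mem_LD v 1) _ _)

/-- subdivision of singular chains -/
def SC : Ch X →ₗ[ℤ] Ch X := LinearMap.id - bd.comp TC - TC.comp bd

theorem SC_apply (x : Ch X) : SC x = x - bd (TC x) - TC (bd x) := rfl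

theorem SC_ev {m : ℕ} (σ : C(Dl m, X)) (x : LC (Dl m)) : SC (ev σ x) = ev σ (SL m x) := by
  rw [SC_apply, SL, cdef_apply, TC_ev, bd_ev, bd_ev, TC_ev, map_sub, map_sub]
  rfl

theorem SC_pow_ev {m : ℕ} (σ : C(Dl m, X)) (n : ℕ) (x : LC (Dl m)) :
    (SC ^ n) (ev σ x) = ev σ ((SL m ^ n) x) := by
  induction n with
  | zero => rfl
  | succ n ih => rw [pow_succ', pow_succ', Module.End.mul_apply, Module.End.mul_apply, ih, SC_ev]

theorem bd_SC (x : Ch X) : bd (SC x) = SC (bd x) := by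
  simp only [SC_apply, map_sub, bd_bd, map_zero, sub_zero]

theorem SC_mem {A : Set X} {m : ℕ} {x : Ch X} (hx : x ∈ C A m) : SC x ∈ C A m := by
  rw [SC_apply]
  refine Submodule.sub_mem _ (Submodule.sub_mem _ hx (bd_mem (TC_mem hx))) ?_
  cases m with
  | zero => rw [bd_eq_zero hx, map_zero]; exact Submodule.zero_mem _
  | succ m => exact TC_mem (bd_mem hx)

theorem exists_small {A U₁ U₂ : Set X} (h₁ : IsOpen U₁) (h₂ : IsOpen U₂) (hA : A ⊆ U₁ ∪ U₂)
    {m : ℕ} {x : Ch X} (hx : x ∈ C A (m + 1)) :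
    ∃ n, (SC ^ n) x ∈ C (A ∩ U₁) (m + 1) ⊔ C (A ∩ U₂) (m + 1) := by
  let N : Submodule ℤ (Ch X) :=
    { carrier := {x | ∀ᶠ n in Filter.atTop,
        (SC ^ n) x ∈ C (A ∩ U₁) (m + 1) ⊔ C (A ∩ U₂) (m + 1)}
      add_mem' := fun ha hb => (Filter.Eventually.and ha hb).mono fun n hn => by
        rw [map_add]; exact Submodule.add_mem _ hn.1 hn.2
      zero_mem' := Filter.Eventually.of_forall fun n => by
        rw [map_zero]; exact Submodule.zero_mem _
      smul_mem' := fun c a ha => Filter.Eventually.mono ha fun n hn => by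
        rw [map_smul]; exact Submodule.smul_mem _ _ hn }
  have key : x ∈ N := by
    refine map_C LinearMap.id N (fun σ hσ => ?_) hx
    obtain ⟨δ, hδ, hl⟩ := lebesgue_number_lemma_of_metric (s := (univ : Set (Dl (m + 1))))
      (c := fun b : Bool => σ ⁻¹' (cond b U₁ U₂)) isCompact_univ
      (fun b => by cases b; exacts [h₂.preimage σ.continuous, h₁.preimage σ.continuous])
      (fun t _ => by
        rcases hA (hσ t) with h | h
        · exact mem_iUnion.2 ⟨true, h⟩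
        · exact mem_iUnion.2 ⟨false, h⟩)
    have ht : Filter.Tendsto (fun n => ((m : ℝ) / (m + 1)) ^ n) Filter.atTop (nhds 0) :=
      tendsto_pow_atTop_nhds_zero_of_lt_one (by positivity)
        ((div_lt_one (by positivity)).2 (by linarith))
    refine (ht.eventually (gt_mem_nhds hδ)).mono fun n hn => ?_
    rw [LinearMap.id_apply, ← ev_vtx, SC_pow_ev]
    refine map_supported _ _ _ ?_ (SL_pow_mem m n)
    rintro ⟨_, u⟩ ⟨rfl, -, hu⟩
    obtain ⟨b, hb⟩ := hl (u 0) trivial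
    have hin : ∀ t, σ (aff u t) ∈ A ∩ cond b U₁ U₂ := fun t =>
      ⟨hσ _, hb (Metric.closedBall_subset_ball hn
        (conv_closedBall (u 0) _ _ u (fun j => hu j 0) t))⟩
    rw [ev, mapG_single]
    cases b
    · exact Submodule.mem_sup_right (single_mem_C (σ := σ.comp (aff u)) hin _)
    · exact Submodule.mem_sup_left (single_mem_C (σ := σ.comp (aff u)) hin _)
  exact Filter.Eventually.exists key

theorem map_sup_mem {φ : Ch X →ₗ[ℤ] Ch X} {P Q P' Q' : Submodule ℤ (Ch X)}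
    (hP : ∀ x ∈ P, φ x ∈ P') (hQ : ∀ x ∈ Q, φ x ∈ Q') {x : Ch X} (hx : x ∈ P ⊔ Q) :
    φ x ∈ P' ⊔ Q' := by
  obtain ⟨a, ha, b, hb, rfl⟩ := Submodule.mem_sup.1 hx
  rw [map_add]
  exact Submodule.add_mem_sup (hP a ha) (hQ b hb)

/-- small simplices theorem -/
theorem exc_of_open {A A₁ A₂ A₀ U₁ U₂ : Set X} (h₁ : IsOpen U₁) (h₂ : IsOpen U₂)
    (hA : A ⊆ U₁ ∪ U₂) (e₁ : A₁ = A ∩ U₁) (e₂ : A₂ = A ∩ U₂) (e₀ : A₀ = A₁ ∩ A₂) :
    Exc A A₁ A₂ A₀ := by
  subst e₀ e₁ e₂
  refine ⟨inter_subset_left, inter_subset_left, inter_subset_left, inter_subset_right,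
    Subset.rfl, fun m x hx hb => ?_⟩
  cases m with
  | zero =>
    refine ⟨0, Submodule.zero_mem _, Submodule.mem_sup_left ?_⟩
    simpa [C_zero (A ∩ U₁) A] using hx
  | succ m =>
    have key : ∀ n, (SC ^ n) x ∈ C A (m + 1) ∧
        bd ((SC ^ n) x) ∈ C (A ∩ U₁) m ⊔ C (A ∩ U₂) m ∧
        ∃ y ∈ C A (m + 1 + 1), x - bd y - (SC ^ n) x ∈ C (A ∩ U₁) (m + 1) ⊔ C (A ∩ U₂) (m + 1) := by
      intro n
      induction n with
      | zero => exact ⟨hx, hb, 0, Submodule.zero_mem _, by simp⟩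
      | succ n ih =>
        obtain ⟨i1, i2, y, hy, i3⟩ := ih
        rw [pow_succ', Module.End.mul_apply]
        refine ⟨SC_mem i1, ?_, y + TC ((SC ^ n) x), Submodule.add_mem _ hy (TC_mem i1), ?_⟩
        · rw [bd_SC]
          exact map_sup_mem (fun _ => SC_mem) (fun _ => SC_mem) i2
        · have e : x - bd (y + TC ((SC ^ n) x)) - SC ((SC ^ n) x) =
              x - bd y - (SC ^ n) x + TC (bd ((SC ^ n) x)) := by
            rw [SC_apply, map_add]
            abel
          rw [e]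
          exact Submodule.add_mem _ i3 (map_sup_mem (fun _ => TC_mem) (fun _ => TC_mem) i2)
    obtain ⟨n, hn⟩ := exists_small h₁ h₂ hA hx
    obtain ⟨-, -, y, hy, h3⟩ := key n
    exact ⟨y, hy, by simpa using Submodule.add_mem _ h3 hn⟩

end Pool.Agent.Shared.SingHom
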